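import Mathlib

set_option autoImplicit false

/-!
# Locally uniform convergence of iterates and Taylor coefficients along polynomial curves
-/

namespace Pool.Agent.MPf2967f

open Filter Topology Polynomial

/-- The conservative Hénon map. -/
def henon (c : ℂ) : ℂ × ℂ → ℂ × ℂ := fun x => (x.1 ^ 2 + c - x.2, x.1)

lemma henon_iterate (c : ℂ) (Q : ℕ → ℂ[X]) (hQ : ∀ n, Q (n + 2) = Q (n + 1) ^ 2 + C c - Q n)
    (x : ℂ) (n : ℕ) : (henon c)^[n] ((Q 1).eval x, (Q 0).eval x) =
      ((Q (n + 1)).eval x, (Q n).eval x) := by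
  induction n with
  | zero => rfl
  | succ n ih =>
    rw [Function.iterate_succ_apply', ih]
    simp only [henon, hQ n]
    simp

lemma poly_coeff_tendsto {U : Set ℂ} (hU : IsOpen U) (h0 : (0 : ℂ) ∈ U) (P : ℕ → ℂ[X]) (P₀ : ℂ[X])
    (h : TendstoLocallyUniformlyOn (fun i x => (P i).eval x) (fun x => P₀.eval x) atTop U) (m : ℕ) :
    Tendsto (fun i => (P i).coeff m) atTop (𝓝 (P₀.coeff m)) := by
  have key : ∀ m : ℕ, TendstoLocallyUniformlyOn (fun i x => (derivative^[m] (P i)).eval x)
      (fun x => (derivative^[m] P₀).eval x) atTop U := by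
    intro m
    induction m with
    | zero => simpa using h
    | succ m ih =>
      have h1 := ih.deriv (Eventually.of_forall (fun i => (Polynomial.differentiable _).differentiableOn)) hU
      have e1 : (deriv ∘ fun (i : ℕ) (x : ℂ) => (derivative^[m] (P i)).eval x) =
          fun i x => (derivative^[m + 1] (P i)).eval x := by
        funext i x
        simp only [Function.comp_apply, Function.iterate_succ_apply']
        exact Polynomial.deriv _
      have e2 : deriv (fun x : ℂ => (derivative^[m] P₀).eval x) =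
          fun x => (derivative^[m + 1] P₀).eval x := by
        funext x
        simp only [Function.iterate_succ_apply']
        exact Polynomial.deriv _
      rw [e1, e2] at h1
      exact h1
  have h2 := (key m).tendsto_at h0
  have h3 : ∀ p : ℂ[X], (derivative^[m] p).eval 0 = (m.factorial : ℂ) * p.coeff m := by
    intro p
    rw [← coeff_zero_eq_eval_zero, coeff_iterate_derivative]
    simp [Nat.descFactorial_self]
  simp only [h3] at h2
  have hm : (m.factorial : ℂ) ≠ 0 := by exact_mod_cast m.factorial_ne_zero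
  have h4 := h2.const_mul ((m.factorial : ℂ)⁻¹)
  simpa [hm] using h4

theorem coeff_tendsto (c : ℂ) (p : ℂ × ℂ) (U : Set (ℂ × ℂ)) (hU : IsOpen U) (hp : p ∈ U)
    (φ : ℕ → ℕ)
    (hφ : TendstoLocallyUniformlyOn (fun j => (henon c)^[φ j]) (id : ℂ × ℂ → ℂ × ℂ) atTop U)
    (Q : ℕ → ℂ[X]) (hQ0 : (Q 0).coeff 0 = p.2) (hQ1 : (Q 1).coeff 0 = p.1)
    (hQ : ∀ n, Q (n + 2) = Q (n + 1) ^ 2 + C c - Q n) (m : ℕ) :
    Tendsto (fun i => (Q (φ i)).coeff m) atTop (𝓝 ((Q 0).coeff m)) ∧
    Tendsto (fun i => (Q (φ i + 1)).coeff m) atTop (𝓝 ((Q 1).coeff m)) := by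
  set γ : ℂ → ℂ × ℂ := fun x => ((Q 1).eval x, (Q 0).eval x) with hγ
  have hγc : Continuous γ := by
    rw [hγ]
    exact (Polynomial.continuous _).prodMk (Polynomial.continuous _)
  have hU' : IsOpen (γ ⁻¹' U) := hU.preimage hγc
  have h0' : (0 : ℂ) ∈ γ ⁻¹' U := by
    rw [Set.mem_preimage]
    have : γ 0 = p := by
      simp only [hγ]
      rw [← coeff_zero_eq_eval_zero, ← coeff_zero_eq_eval_zero, hQ0, hQ1]
    rw [this]
    exact hp
  have h1 := hφ.comp γ (Set.mapsTo_preimage γ U) hγc.continuousOn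
  have e : (fun (j : ℕ) => (henon c)^[φ j] ∘ γ) =
      fun j x => ((Q (φ j + 1)).eval x, (Q (φ j)).eval x) := by
    funext j x
    exact henon_iterate c Q hQ x (φ j)
  have h2 : TendstoLocallyUniformlyOn (fun (j : ℕ) x => ((Q (φ j + 1)).eval x, (Q (φ j)).eval x))
      (fun x => ((Q 1).eval x, (Q 0).eval x)) atTop (γ ⁻¹' U) := by
    rw [← e]
    exact h1
  have h3 : TendstoLocallyUniformlyOn (fun (j : ℕ) x => (Q (φ j + 1)).eval x)
      (fun x => (Q 1).eval x) atTop (γ ⁻¹' U) :=
    uniformContinuous_fst.comp_tendstoLocallyUniformlyOn h2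
  have h4 : TendstoLocallyUniformlyOn (fun (j : ℕ) x => (Q (φ j)).eval x)
      (fun x => (Q 0).eval x) atTop (γ ⁻¹' U) :=
    uniformContinuous_snd.comp_tendstoLocallyUniformlyOn h2
  exact ⟨poly_coeff_tendsto hU' h0' _ _ h4 m, poly_coeff_tendsto hU' h0' _ _ h3 m⟩

end Pool.Agent.MPf2967f
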