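import Mathlib

set_option autoImplicit false

/-!
# Secular growth
-/

namespace Pool.Agent.MPf2967f

open Filter Topology

lemma secular {k : ℕ} (z D γ δ : ℕ → ℂ) (hD0 : D 0 = 0) (hD1 : D 1 = 0)
    (hD : ∀ n, D (n + 2) = 2 * z (n + 1) * D (n + 1) - D n + δ (n + 1))
    (hγ : ∀ n, γ (n + 2) = 2 * z (n + 1) * γ (n + 1) - γ n) (s s' μ : ℂ) (hμ : μ ≠ 1)
    (hδ : ∀ n, γ n * δ n = if k ∣ n then s + s' * μ ^ (n / k) else 0)
    (hk : 0 < k) (N : ℕ → ℕ) (hN : Tendsto N atTop atTop)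
    (hμN : Tendsto (fun i => μ ^ (N i)) atTop (𝓝 1))
    (hlim : Tendsto (fun i => γ (k * N i) * D (k * N i + 1) - γ (k * N i + 1) * D (k * N i))
      atTop (𝓝 0)) : s = 0 := by
  -- Wronskian
  have hW : ∀ n, γ n * D (n + 1) - γ (n + 1) * D n =
      ∑ l ∈ Finset.range (n / k), (s + s' * μ ^ (l + 1)) := by
    intro n
    induction n with
    | zero => simp [hD0, hD1]
    | succ n ih =>
      rw [hD n, hγ n, Nat.succ_div]
      have h1 := hδ (n + 1)
      by_cases hd : k ∣ n + 1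
      · rw [if_pos hd, Finset.sum_range_succ, ← ih]
        rw [if_pos hd] at h1
        have h2 : (n + 1) / k = n / k + 1 := by rw [Nat.succ_div, if_pos hd]
        rw [h2] at h1
        linear_combination h1
      · rw [if_neg hd, add_zero, ← ih]
        rw [if_neg hd] at h1
        linear_combination h1
  have hW' : ∀ m, γ (k * m) * D (k * m + 1) - γ (k * m + 1) * D (k * m) =
      m * s + s' * (μ * ((μ ^ m - 1) / (μ - 1))) := by
    intro m
    rw [hW, Nat.mul_div_cancel_left _ hk, Finset.sum_add_distrib, ← Finset.mul_sum,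
      Finset.sum_const, Finset.card_range, nsmul_eq_mul]
    congr 2
    rw [← geom_sum_eq hμ, Finset.mul_sum]
    exact Finset.sum_congr rfl (fun l _ => by ring)
  have h1 : Tendsto (fun i => ((N i : ℕ) : ℂ) * s) atTop (𝓝 0) := by
    have h2 : Tendsto (fun i => s' * (μ * ((μ ^ (N i) - 1) / (μ - 1)))) atTop (𝓝 0) := by
      have : Tendsto (fun i => s' * (μ * ((μ ^ (N i) - 1) / (μ - 1)))) atTop
          (𝓝 (s' * (μ * ((1 - 1) / (μ - 1))))) :=
        (((hμN.sub_const 1).div_const (μ - 1)).const_mul μ).const_mul s'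
      simpa using this
    have h3 := hlim.sub h2
    rw [sub_zero] at h3
    refine h3.congr (fun i => ?_)
    rw [hW' (N i)]
    ring
  -- conclude
  by_contra hs
  have h2 : Tendsto (fun i => ‖((N i : ℕ) : ℂ) * s‖) atTop (𝓝 0) := by
    simpa using h1.norm
  have h3 : ∀ᶠ i in atTop, ‖((N i : ℕ) : ℂ) * s‖ < ‖s‖ :=
    h2.eventually (gt_mem_nhds (norm_pos_iff.mpr hs))
  have h4 : ∀ᶠ i in atTop, 1 ≤ N i := hN.eventually (eventually_ge_atTop 1)
  obtain ⟨i, hi3, hi4⟩ := (h3.and h4).exists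
  rw [norm_mul, Complex.norm_natCast] at hi3
  have : (1 : ℝ) ≤ (N i : ℝ) := by exact_mod_cast hi4
  nlinarith [norm_nonneg s]

end Pool.Agent.MPf2967f
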