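import Mathlib

set_option autoImplicit false

/-!
# The reduced system

After rescaling and reduction modulo the maximal ideal of a valuation ring, a formal linearisation of
a periodic orbit of the conservative Hénon map becomes the system studied here: power series
`a j, B j, D j` (`j ∈ ℤ/k`) with `a² + 2 X² B D + b a = 0`,
`(b + 2a) B_j = θ B_{j+1}`, `(b + 2a) D_j = θ D_{j-1}`.
We derive its consequences (`two_adic` and `field_case`).
-/

namespace Pool.Agent.MPf2967f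

open PowerSeries

/-- Induction along the cycle `ℤ/k`. -/
lemma cycle_induction {k : ℕ} [NeZero k] {P : ZMod k → Prop} (j₀ : ZMod k) (h0 : P j₀)
    (hs : ∀ j, P j → P (j + 1)) : ∀ j, P j := by
  have key : ∀ n : ℕ, P (j₀ + n) := by
    intro n
    induction n with
    | zero => simpa using h0
    | succ n ih => have := hs _ ih; push_cast; rwa [← add_assoc]
  intro j
  have := key (j - j₀).val
  rw [ZMod.natCast_zmod_val] at this
  simpa using this

lemma cycle_induction_neg {k : ℕ} [NeZero k] {P : ZMod k → Prop} (j₀ : ZMod k) (h0 : P j₀)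
    (hs : ∀ j, P j → P (j - 1)) : ∀ j, P j := by
  have key := cycle_induction (P := fun j => P (-j)) (-j₀) (by simpa using h0)
    (fun j hj => by have := hs _ hj; rwa [neg_add, ← sub_eq_add_neg])
  intro j
  simpa using key (-j)

section reduced

variable {A : Type*} [CommRing A] {k : ℕ} [NeZero k]

/-- The reduced system. -/
structure Reduced (A : Type*) [CommRing A] (k : ℕ) [NeZero k] where
  b : ZMod k → A
  θ : A
  a : ZMod k → A⟦X⟧
  B : ZMod k → A⟦X⟧
  D : ZMod k → A⟦X⟧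
  hb : ∀ j, b j * b j = 1
  ha : ∀ j, constantCoeff (a j) = 0
  hB : ∀ j, IsUnit (B j)
  hD : ∀ j, IsUnit (D j)
  h0 : ∀ j, a j ^ 2 + 2 * (X ^ 2 * (B j * D j)) + C (b j) * a j = 0
  h1 : ∀ j, (C (b j) + 2 * a j) * B j = C θ * B (j + 1)
  h2 : ∀ j, (C (b j) + 2 * a j) * D j = C θ * D (j - 1)

namespace Reduced

variable (S : Reduced A k)

/-- the local multiplier series -/
noncomputable def e (j : ZMod k) : A⟦X⟧ := C (S.b j) + 2 * S.a j

/-- the invariant -/
noncomputable def F : A⟦X⟧ := S.e 0 * (S.B 0 * S.D 0)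

lemma e_mul (j : ZMod k) : S.e j * (S.B j * S.D j) = S.F := by
  refine cycle_induction (P := fun j => S.e j * (S.B j * S.D j) = S.F) 0 rfl ?_ j
  intro j hj
  have h1 := S.h1 j
  have h2 := S.h2 (j + 1)
  rw [add_sub_cancel_right] at h2
  simp only [e] at hj ⊢
  calc (C (S.b (j + 1)) + 2 * S.a (j + 1)) * (S.B (j + 1) * S.D (j + 1))
      = S.B (j + 1) * ((C (S.b (j + 1)) + 2 * S.a (j + 1)) * S.D (j + 1)) := by ring
    _ = (C S.θ * S.B (j + 1)) * S.D j := by rw [h2]; ring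
    _ = (C (S.b j) + 2 * S.a j) * (S.B j * S.D j) := by rw [← h1]; ring
    _ = S.F := hj

lemma prod_e : ∏ j, S.e j = C S.θ ^ k := by
  have h : (∏ j, S.e j) * ∏ j, S.B j = C S.θ ^ k * ∏ j, S.B j := by
    rw [← Finset.prod_mul_distrib]
    have : ∀ j, S.e j * S.B j = C S.θ * S.B (j + 1) := fun j => S.h1 j
    simp_rw [this]
    rw [Finset.prod_mul_distrib]
    congr 1
    · simp
    · exact Fintype.prod_equiv (Equiv.addRight (1 : ZMod k)) _ _ (fun j => rfl)
  have hu : IsUnit (∏ j, S.B j) := by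
    rw [IsUnit.prod_univ_iff]
    exact S.hB
  exact hu.mul_right_cancel h

lemma isUnit_b (j : ZMod k) : IsUnit (S.b j) := IsUnit.of_mul_eq_one _ (S.hb j)

lemma constantCoeff_e (j : ZMod k) : constantCoeff (S.e j) = S.b j := by
  simp [e, S.ha j]

lemma isUnit_e (j : ZMod k) : IsUnit (S.e j) := by
  rw [isUnit_iff_constantCoeff, constantCoeff_e]
  exact S.isUnit_b j

lemma isUnit_F : IsUnit S.F := (S.isUnit_e 0).mul ((S.hB 0).mul (S.hD 0))

/-- `P_j = X² B_j D_j`, `e_j P_j = X² F`. -/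
lemma e_sq (j : ZMod k) : S.e j ^ 2 = 1 - 8 * (X ^ 2 * (S.B j * S.D j)) := by
  have h := S.h0 j
  have hb : (C (S.b j) : A⟦X⟧) * C (S.b j) = 1 := by rw [← map_mul, S.hb j, map_one]
  simp only [e]
  linear_combination 4 * h + hb

/-- the cubic equation -/
lemma e_cube (j : ZMod k) : S.e j ^ 3 - S.e j + 8 * (X ^ 2 * S.F) = 0 := by
  have h1 := S.e_sq j
  have h2 := S.e_mul j
  linear_combination S.e j * h1 - 8 * X ^ 2 * h2

/-- Third order expansion of `e_j`. -/
lemma e_expand (j : ZMod k) : ∃ G : A⟦X⟧,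
    S.e j = C (S.b j) * (1 - 4 * C (S.b j) * (X ^ 2 * S.F) - 24 * (X ^ 2 * S.F) ^ 2 + X ^ 6 * G) := by
  have h0 := S.h0 j
  have h2 := S.e_mul j
  have hb : (C (S.b j) : A⟦X⟧) * C (S.b j) = 1 := by rw [← map_mul, S.hb j, map_one]
  set b : A⟦X⟧ := C (S.b j) with hbdef
  set a := S.a j with hadef
  set P : A⟦X⟧ := S.B j * S.D j with hP
  set F := S.F with hF
  have he : S.e j = b + 2 * a := rfl
  rw [he] at h2
  -- a = X * a1
  obtain ⟨a1, ha1⟩ : X ∣ a := X_dvd_iff.mpr (S.ha j)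
  -- a = -b a^2 - 2 b X^2 P
  have ha : a = -b * a ^ 2 - 2 * b * (X ^ 2 * P) := by
    linear_combination b * h0 - a * hb
  -- P = b F - 2 b a P
  have hP' : P = b * F - 2 * b * a * P := by
    linear_combination b * h2 - P * hb
  -- a = X^2 * a2
  obtain ⟨a2, ha2⟩ : ∃ a2, a = X ^ 2 * a2 := ⟨-b * a1 ^ 2 - 2 * b * P, by
    rw [ha1] at ha ⊢; linear_combination ha⟩
  -- P = b F + X^2 * P1
  obtain ⟨P1, hP1⟩ : ∃ P1, P = b * F + X ^ 2 * P1 := ⟨-2 * b * a2 * P, by
    rw [ha2] at hP'; linear_combination hP'⟩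
  -- a = -2 X^2 F + X^4 a3
  obtain ⟨a3, ha3⟩ : ∃ a3, a = -2 * (X ^ 2 * F) + X ^ 4 * a3 := ⟨-b * a2 ^ 2 - 2 * b * P1, by
    have h3 : a = -b * (X ^ 2 * a2) ^ 2 - 2 * b * (X ^ 2 * (b * F + X ^ 2 * P1)) := by
      rw [← ha2, ← hP1]; exact ha
    linear_combination h3 - 2 * X ^ 2 * F * hb⟩
  -- P = b F + 4 X^2 F^2 + X^4 P2
  obtain ⟨P2, hP2⟩ : ∃ P2, P = b * F + 4 * X ^ 2 * F ^ 2 + X ^ 4 * P2 :=
    ⟨4 * b * F * P1 - 2 * b * a3 * P, by
      have h3 : P = b * F - 2 * b * (-2 * (X ^ 2 * F) + X ^ 4 * a3) * P := by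
        rw [← ha3]; exact hP'
      have h4 : P = b * F + 4 * b * X ^ 2 * F * P - 2 * b * X ^ 4 * a3 * P := by
        linear_combination h3
      have h5 : 4 * b * X ^ 2 * F * P = 4 * b * X ^ 2 * F * (b * F + X ^ 2 * P1) := by
        rw [← hP1]
      linear_combination h4 + h5 + 4 * X ^ 2 * F ^ 2 * hb⟩
  -- a = -2 X^2 F - 12 b X^4 F^2 + X^6 a4
  obtain ⟨a4, ha4⟩ : ∃ a4, a = -2 * (X ^ 2 * F) - 12 * b * (X ^ 2 * F) ^ 2 + X ^ 6 * a4 := by
    refine ⟨-b * (-4 * F * a3 + X ^ 2 * a3 ^ 2) - 2 * b * P2, ?_⟩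
    have h3 : a = -b * (-2 * (X ^ 2 * F) + X ^ 4 * a3) ^ 2
        - 2 * b * (X ^ 2 * (b * F + 4 * X ^ 2 * F ^ 2 + X ^ 4 * P2)) := by
      rw [← ha3, ← hP2]; exact ha
    linear_combination h3 - 2 * X ^ 2 * F * hb
  refine ⟨2 * b * a4, ?_⟩
  rw [he]
  linear_combination 2 * ha4 + (4 * (X ^ 2 * F) - 2 * X ^ 6 * a4) * hb

/-- Product of the expansions. -/
lemma prod_expand (s : Finset (ZMod k)) : ∃ G : A⟦X⟧,
    ∏ j ∈ s, S.e j = C (∏ j ∈ s, S.b j) * (1 - 4 * C (∑ j ∈ s, S.b j) * (X ^ 2 * S.F)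
      + (8 * C (∑ j ∈ s, S.b j) ^ 2 - 32 * (s.card : A⟦X⟧)) * (X ^ 2 * S.F) ^ 2 + X ^ 6 * G) := by
  classical
  induction s using Finset.induction_on with
  | empty => exact ⟨0, by simp⟩
  | insert j s hj ih =>
    obtain ⟨G, hG⟩ := ih
    obtain ⟨H, hH⟩ := S.e_expand j
    rw [Finset.prod_insert hj, hG, hH, Finset.prod_insert hj, Finset.sum_insert hj,
      Finset.card_insert_of_notMem hj]
    have hb : (C (S.b j) : A⟦X⟧) * C (S.b j) = 1 := by rw [← map_mul, S.hb j, map_one]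
    simp only [map_mul, map_add]
    set b : A⟦X⟧ := C (S.b j)
    set p : A⟦X⟧ := C (∏ j ∈ s, S.b j)
    set t : A⟦X⟧ := C (∑ j ∈ s, S.b j)
    set F := S.F
    push_cast
    set n : A⟦X⟧ := (s.card : A⟦X⟧)
    refine ⟨G * (1 - 4 * b * (X ^ 2 * F) - 24 * (X ^ 2 * F) ^ 2 + X ^ 6 * H)
      + H * (1 - 4 * t * (X ^ 2 * F) + (8 * t ^ 2 - 32 * n) * (X ^ 2 * F) ^ 2)
      + (-4 * b) * (8 * t ^ 2 - 32 * n) * F ^ 3 - 24 * (-4 * t) * F ^ 3
      - 24 * (8 * t ^ 2 - 32 * n) * X ^ 2 * F ^ 4, ?_⟩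
    linear_combination (-8 * X ^ 4 * F ^ 2 * b * p) * hb

include S in
/-- In every quotient where the small parameter dies, `32 k = 0`. -/
theorem two_adic : (32 * (k : A)) = 0 := by
  obtain ⟨G, hG⟩ := S.prod_expand Finset.univ
  rw [S.prod_e, Finset.card_univ, ZMod.card] at hG
  set F := S.F with hF
  set t : A := ∑ j, S.b j with ht
  have hp : ∏ j, S.b j = S.θ ^ k := by
    have := congrArg constantCoeff hG
    simpa using this.symm
  have hu : IsUnit (C (∏ j, S.b j) : A⟦X⟧) := by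
    apply IsUnit.map
    rw [IsUnit.prod_univ_iff]
    exact S.isUnit_b
  have h1 : C (∏ j, S.b j) * (1 : A⟦X⟧) = C (∏ j, S.b j) * (1 - 4 * C t * (X ^ 2 * F)
      + (8 * C t ^ 2 - 32 * (k : A⟦X⟧)) * (X ^ 2 * F) ^ 2 + X ^ 6 * G) := by
    rw [← hG, hp]; simp
  have h2 := hu.mul_left_cancel h1
  have h3 : X ^ 2 * (-4 * C t * F + (8 * C t ^ 2 - 32 * (k : A⟦X⟧)) * (X ^ 2 * F ^ 2) + X ^ 4 * G)
      = X ^ 2 * 0 := by
    linear_combination -h2
  have cancel : ∀ {u v : A⟦X⟧}, X ^ 2 * u = X ^ 2 * v → u = v := by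
    intro u v h
    rw [pow_two, mul_assoc, mul_assoc] at h
    exact X_mul_cancel (X_mul_cancel h)
  have h4 := cancel h3
  have hFu : IsUnit (constantCoeff F) := isUnit_iff_constantCoeff.mp S.isUnit_F
  have h5 : 4 * t = 0 := by
    have := congrArg constantCoeff h4
    simp [map_ofNat] at this
    have h6 : constantCoeff F * (4 * t) = constantCoeff F * 0 := by
      linear_combination this
    exact hFu.mul_left_cancel h6
  have h5' : (4 * C t : A⟦X⟧) = 0 := by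
    have : (C (4 * t) : A⟦X⟧) = 0 := by rw [h5, map_zero]
    simpa [map_ofNat] using this
  have h7 : X ^ 2 * ((8 * C t ^ 2 - 32 * (k : A⟦X⟧)) * F ^ 2 + X ^ 2 * G) = X ^ 2 * 0 := by
    linear_combination h4 + F * h5'
  have h8 := cancel h7
  have h9 := congrArg constantCoeff h8
  simp [map_ofNat] at h9
  have h10 : (constantCoeff F) ^ 2 * (8 * t ^ 2 - 32 * (k : A)) = (constantCoeff F) ^ 2 * 0 := by
    linear_combination h9
  have h11 := (hFu.pow 2).mul_left_cancel h10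
  linear_combination 2 * t * h5 - h11

end Reduced
end reduced

section field

variable {K : Type*} [Field K]

lemma isConst_of_pow_char {p : ℕ} [Fact p.Prime] [CharP K p] {f : K⟦X⟧} {q : K}
    (h : f ^ p = C q) : f = C (constantCoeff f) := by
  have : CharP K⟦X⟧ p := charP_of_injective_ringHom (C_injective (R := K)) p
  set g : K⟦X⟧ := f - C (constantCoeff f) with hg
  have hf : f = C (constantCoeff f) + g := by rw [hg]; ring
  have h1 : C (constantCoeff f) ^ p + g ^ p = C q := by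
    rw [← add_pow_char, ← hf, h]
  have hp : p ≠ 0 := (Fact.out : p.Prime).ne_zero
  have h2 : constantCoeff g = 0 := by simp [hg]
  have h3 := congrArg constantCoeff h1
  simp only [map_add, map_pow, constantCoeff_C, h2, zero_pow hp, add_zero] at h3
  have h4 : g ^ p = 0 := by
    have : (C q : K⟦X⟧) = C (constantCoeff f) ^ p := by rw [← h3, map_pow]
    rw [this] at h1
    simpa using h1
  have h5 : g = 0 := pow_eq_zero_iff hp |>.mp h4
  rw [h5, add_zero] at hf
  exact hf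

/-- root of the limiting cubic with prescribed constant coefficient -/
def Good (F : K⟦X⟧) (s : K) (r : K⟦X⟧) : Prop :=
  r ^ 3 - r + 8 * (X ^ 2 * F) = 0 ∧ ∃ G, r = C s - 4 * (X ^ 2 * F) + X ^ 4 * G

lemma two_ne (h2 : (2 : K) ≠ 0) : (2 : K⟦X⟧) ≠ 0 := by
  intro h0
  have h1 := congrArg constantCoeff h0
  rw [map_ofNat, map_zero] at h1
  exact h2 h1

lemma Good.deriv (h2 : (2 : K) ≠ 0) {F r : K⟦X⟧} {s : K} (h : Good F s r) :
    (r - 12 * (X ^ 2 * F)) * derivative K r = -4 * derivative K (X ^ 2 * F) * r := by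
  have h1 := congrArg (derivative K) h.1
  have h3 : ∀ Y : K⟦X⟧, derivative K (8 * Y) = 8 * derivative K Y := by
    intro Y
    have : (8 : K⟦X⟧) * Y = (8 : ℕ) • Y := by simp [nsmul_eq_mul]
    rw [this, map_nsmul]; simp [nsmul_eq_mul]
  have h4 : derivative K (r ^ 3) = 3 * r ^ 2 * derivative K r := by
    rw [Derivation.leibniz_pow]; simp [nsmul_eq_mul, smul_eq_mul, mul_assoc]
  rw [map_add, map_sub, h3, h4, map_zero] at h1
  apply mul_left_cancel₀ (two_ne h2)
  linear_combination r * h1 - 3 * derivative K r * h.1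

lemma Good.ne_zero {F r : K⟦X⟧} {s : K} (hs : s ≠ 0) (h : Good F s r) : r ≠ 0 := by
  rintro rfl
  obtain ⟨-, G, hG⟩ := h
  have := congrArg constantCoeff hG
  simp at this
  exact hs this.symm

lemma deriv_Y_ne (h2 : (2 : K) ≠ 0) {F : K⟦X⟧} (hF : constantCoeff F ≠ 0) :
    derivative K (X ^ 2 * F) ≠ 0 := by
  have : derivative K (X ^ 2 * F) = X * (2 * F + X * derivative K F) := by
    rw [Derivation.leibniz, Derivation.leibniz_pow]
    simp [nsmul_eq_mul, smul_eq_mul, derivative_X]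
    ring
  rw [this]
  refine mul_ne_zero X_ne_zero ?_
  intro h
  have := congrArg constantCoeff h
  simp [map_ofNat] at this
  rcases this with h | h
  · exact h2 h
  · exact hF h

lemma Good.deriv_ne_zero (h2 : (2 : K) ≠ 0) {F r : K⟦X⟧} {s : K} (hs : s ≠ 0)
    (hF : constantCoeff F ≠ 0) (h : Good F s r) : derivative K r ≠ 0 := by
  intro h0
  have h1 := h.deriv h2
  rw [h0, mul_zero] at h1
  have h4 : (-4 : K⟦X⟧) ≠ 0 := by
    have : (-4 : K⟦X⟧) = -(2 * 2) := by norm_num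
    rw [this, neg_ne_zero]
    exact mul_ne_zero (two_ne h2) (two_ne h2)
  exact mul_ne_zero (mul_ne_zero h4 (deriv_Y_ne h2 hF)) (h.ne_zero hs) h1.symm

lemma natCast_eq_zero_of {n : ℕ} (h : (n : K⟦X⟧) = 0) : (n : K) = 0 := by
  have := congrArg constantCoeff h
  simpa using this

lemma one_kind (h2 : (2 : K) ≠ 0) {F r : K⟦X⟧} {s : K} (hs : s ≠ 0)
    (hF : constantCoeff F ≠ 0) (h : Good F s r) (a : ℕ) (ha : a ≠ 0) (q : K)
    (hq : r ^ a = C q) : (a : K) = 0 := by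
  have h1 := congrArg (derivative K) hq
  rw [Derivation.leibniz_pow, derivative_C] at h1
  simp only [nsmul_eq_mul, smul_eq_mul, mul_eq_zero, pow_eq_zero_iff', ne_eq] at h1
  rcases h1 with h1 | h1 | h1
  · exact natCast_eq_zero_of h1
  · exact absurd h1.1 (h.ne_zero hs)
  · exact absurd h1 (h.deriv_ne_zero h2 hs hF)

lemma two_kinds (h2 : (2 : K) ≠ 0) {F r₁ r₂ : K⟦X⟧}
    (hF : constantCoeff F ≠ 0) (h₁ : Good F 1 r₁) (h₂ : Good F (-1) r₂) (a b : ℕ) (ha : a ≠ 0)
    (hb : b ≠ 0) (q : K) (hq : r₁ ^ a * r₂ ^ b = C q) : (a : K) = 0 ∧ (b : K) = 0 := by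
  have n₁ := h₁.ne_zero one_ne_zero
  have n₂ := h₂.ne_zero (neg_ne_zero.mpr one_ne_zero)
  have d₁ := h₁.deriv h2
  have d₂ := h₂.deriv h2
  have hY := deriv_Y_ne h2 hF
  have h1 := congrArg (derivative K) hq
  rw [Derivation.leibniz, Derivation.leibniz_pow, Derivation.leibniz_pow, derivative_C] at h1
  simp only [nsmul_eq_mul, smul_eq_mul] at h1
  obtain ⟨a', rfl⟩ := Nat.exists_eq_succ_of_ne_zero ha
  obtain ⟨b', rfl⟩ := Nat.exists_eq_succ_of_ne_zero hb
  simp only [Nat.succ_eq_add_one, Nat.add_sub_cancel] at h1 hq ⊢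
  set Y : K⟦X⟧ := X ^ 2 * F with hYdef
  have e1 : (r₁ ^ a' * r₂ ^ b') * (((a' + 1 : ℕ) : K⟦X⟧) * derivative K r₁ * r₂ +
      ((b' + 1 : ℕ) : K⟦X⟧) * derivative K r₂ * r₁) = 0 := by
    rw [← h1]; ring
  have e2 : ((a' + 1 : ℕ) : K⟦X⟧) * derivative K r₁ * r₂ +
      ((b' + 1 : ℕ) : K⟦X⟧) * derivative K r₂ * r₁ = 0 :=
    (mul_eq_zero.mp e1).resolve_left (mul_ne_zero (pow_ne_zero _ n₁) (pow_ne_zero _ n₂))
  have h4 : (-4 : K⟦X⟧) ≠ 0 := by
    have : (-4 : K⟦X⟧) = -(2 * 2) := by norm_num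
    rw [this, neg_ne_zero]
    exact mul_ne_zero (two_ne h2) (two_ne h2)
  have e3 : (-4 * derivative K Y * r₁ * r₂) * (((a' + 1 : ℕ) : K⟦X⟧) * (r₂ - 12 * Y) +
      ((b' + 1 : ℕ) : K⟦X⟧) * (r₁ - 12 * Y)) = 0 := by
    linear_combination (r₁ - 12 * Y) * (r₂ - 12 * Y) * e2
      - ((a' + 1 : ℕ) : K⟦X⟧) * r₂ * (r₂ - 12 * Y) * d₁
      - ((b' + 1 : ℕ) : K⟦X⟧) * r₁ * (r₁ - 12 * Y) * d₂
  have e4 : ((a' + 1 : ℕ) : K⟦X⟧) * (r₂ - 12 * Y) + ((b' + 1 : ℕ) : K⟦X⟧) * (r₁ - 12 * Y) = 0 :=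
    (mul_eq_zero.mp e3).resolve_left
      (mul_ne_zero (mul_ne_zero (mul_ne_zero h4 hY) n₁) n₂)
  obtain ⟨-, G₁, hG₁⟩ := h₁
  obtain ⟨-, G₂, hG₂⟩ := h₂
  rw [hG₁, hG₂, ← hYdef] at e4
  set A : K⟦X⟧ := ((a' + 1 : ℕ) : K⟦X⟧) with hA
  set B : K⟦X⟧ := ((b' + 1 : ℕ) : K⟦X⟧) with hB
  have cA : constantCoeff A = ((a' + 1 : ℕ) : K) := by rw [hA, map_natCast]
  have cB : constantCoeff B = ((b' + 1 : ℕ) : K) := by rw [hB, map_natCast]
  have e5 := congrArg constantCoeff e4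
  simp only [hYdef, map_add, map_mul, map_sub, constantCoeff_C, map_pow, constantCoeff_X, map_ofNat,
    cA, cB, map_zero] at e5
  have e6 : ((b' + 1 : ℕ) : K) = ((a' + 1 : ℕ) : K) := by linear_combination e5
  have e7 : B = A := by
    have : (C ((b' + 1 : ℕ) : K) : K⟦X⟧) = C ((a' + 1 : ℕ) : K) := by rw [e6]
    simpa [hA, hB] using this
  rw [e7, hYdef] at e4
  have e8 : X ^ 2 * (A * (-32 * F + X ^ 2 * (G₁ + G₂))) = 0 := by
    have hC : (C (1 : K) : K⟦X⟧) + C (-1) = 0 := by rw [← map_add]; simp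
    linear_combination e4 - A * hC
  have e9 := (mul_eq_zero.mp e8).resolve_left (pow_ne_zero _ X_ne_zero)
  have e10 := congrArg constantCoeff e9
  simp only [map_mul, map_add, map_pow, constantCoeff_X, map_neg, map_ofNat, cA, map_zero] at e10
  have h32 : (32 : K) ≠ 0 := by
    have : (32 : K) = 2 ^ 5 := by norm_num
    rw [this]; exact pow_ne_zero _ h2
  have e11 : ((a' + 1 : ℕ) : K) = 0 := by
    rcases mul_eq_zero.mp e10 with h | h
    · exact h
    · exfalso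
      have : (32 : K) * constantCoeff F = 0 := by linear_combination -h
      exact mul_ne_zero h32 hF this
  exact ⟨e11, by rw [e6]; exact e11⟩

/-- The multiplicative independence of the two roots. -/
lemma no_relation (h2 : (2 : K) ≠ 0) {F r₁ r₂ : K⟦X⟧} (hF : constantCoeff F ≠ 0) :
    ∀ (N a b : ℕ), a + b = N → (a ≠ 0 → Good F 1 r₁) → (b ≠ 0 → Good F (-1) r₂) →
      ∀ q : K, r₁ ^ a * r₂ ^ b = C q → a = 0 ∧ b = 0 := by
  intro N
  induction N using Nat.strong_induction_on with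
  | _ N ih =>
  intro a b hab h₁ h₂ q hq
  by_contra hne
  have hcast : (a : K) = 0 ∧ (b : K) = 0 := by
    rcases eq_or_ne a 0 with ha | ha
    · rcases eq_or_ne b 0 with hb | hb
      · exact absurd ⟨ha, hb⟩ hne
      · subst ha
        refine ⟨by simp, one_kind h2 (neg_ne_zero.mpr one_ne_zero) hF (h₂ hb) b hb q ?_⟩
        simpa using hq
    · rcases eq_or_ne b 0 with hb | hb
      · subst hb
        refine ⟨one_kind h2 one_ne_zero hF (h₁ ha) a ha q ?_, by simp⟩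
        simpa using hq
      · exact two_kinds h2 hF (h₁ ha) (h₂ hb) a b ha hb q hq
  obtain ⟨p, hp⟩ := CharP.exists K
  rw [CharP.cast_eq_zero_iff K p, CharP.cast_eq_zero_iff K p] at hcast
  obtain ⟨⟨a', rfl⟩, ⟨b', rfl⟩⟩ := hcast
  rcases CharP.char_is_prime_or_zero K p with hpp | hp0
  · have : Fact p.Prime := ⟨hpp⟩
    have h3 : (r₁ ^ a' * r₂ ^ b') ^ p = C q := by
      rw [← hq]; ring
    have h4 := isConst_of_pow_char h3
    have hlt : a' + b' < N := by
      have hpos : 0 < a' + b' := by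
        by_contra h
        apply hne
        have h5 : a' = 0 := by omega
        have h6 : b' = 0 := by omega
        subst h5 h6
        simp
      rw [← hab, ← mul_add]
      have := hpp.two_le
      nlinarith
    obtain ⟨h5, h6⟩ := ih (a' + b') hlt a' b' rfl
      (fun h => h₁ (mul_ne_zero hpp.ne_zero h)) (fun h => h₂ (mul_ne_zero hpp.ne_zero h)) _ h4
    subst h5 h6
    exact hne ⟨by simp, by simp⟩
  · subst hp0
    exact hne ⟨by simp, by simp⟩

theorem field_case (h2 : (2 : K) ≠ 0) {k : ℕ} [NeZero k] (S : Reduced K k) : False := by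
  classical
  have hF : constantCoeff S.F ≠ 0 := (isUnit_iff_constantCoeff.mp S.isUnit_F).ne_zero
  have hgood : ∀ j, Good S.F (S.b j) (S.e j) := by
    intro j
    refine ⟨S.e_cube j, ?_⟩
    obtain ⟨G, hG⟩ := S.e_expand j
    have hb : (C (S.b j) : K⟦X⟧) * C (S.b j) = 1 := by rw [← map_mul, S.hb j, map_one]
    refine ⟨C (S.b j) * (-24 * S.F ^ 2 + X ^ 2 * G), ?_⟩
    linear_combination hG - 4 * (X ^ 2 * S.F) * hb
  have hsq : ∀ j, S.b j = 1 ∨ S.b j = -1 := by
    intro j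
    have : (S.b j - 1) * (S.b j + 1) = 0 := by linear_combination S.hb j
    rcases mul_eq_zero.mp this with h | h
    · left; linear_combination h
    · right; linear_combination h
  have heq : ∀ i j, S.b i = S.b j → S.e i = S.e j := by
    intro i j hij
    have h3 : (S.e i - S.e j) * (S.e i ^ 2 + S.e i * S.e j + S.e j ^ 2 - 1) = 0 := by
      linear_combination S.e_cube i - S.e_cube j
    rcases mul_eq_zero.mp h3 with h | h
    · exact sub_eq_zero.mp h
    · exfalso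
      have h4 := congrArg constantCoeff h
      simp only [map_add, map_sub, map_mul, map_pow, map_one, map_zero, S.constantCoeff_e] at h4
      rw [hij] at h4
      apply h2
      linear_combination h4 - 3 * S.hb j
  have hprod := S.prod_e
  -- split according to the sign
  set s₁ : Finset (ZMod k) := Finset.univ.filter (fun j => S.b j = 1) with hs₁
  set s₂ : Finset (ZMod k) := Finset.univ.filter (fun j => ¬ S.b j = 1) with hs₂
  obtain ⟨r₁, hr₁⟩ : ∃ r₁ : K⟦X⟧, ∀ j ∈ s₁, S.e j = r₁ := by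
    rcases s₁.eq_empty_or_nonempty with h | ⟨i, hi⟩
    · exact ⟨1, by simp [h]⟩
    · refine ⟨S.e i, fun j hj => heq j i ?_⟩
      rw [hs₁, Finset.mem_filter] at hi hj
      rw [hi.2, hj.2]
  obtain ⟨r₂, hr₂⟩ : ∃ r₂ : K⟦X⟧, ∀ j ∈ s₂, S.e j = r₂ := by
    rcases s₂.eq_empty_or_nonempty with h | ⟨i, hi⟩
    · exact ⟨1, by simp [h]⟩
    · refine ⟨S.e i, fun j hj => heq j i ?_⟩
      rw [hs₂, Finset.mem_filter] at hi hj
      rw [(hsq i).resolve_left hi.2, (hsq j).resolve_left hj.2]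
  have hsplit : r₁ ^ s₁.card * r₂ ^ s₂.card = C (S.θ ^ k) := by
    rw [map_pow, ← hprod, ← Finset.prod_filter_mul_prod_filter_not Finset.univ
      (fun j => S.b j = 1) (fun j => S.e j)]
    congr 1
    · rw [← hs₁, Finset.prod_congr rfl hr₁, Finset.prod_const]
    · rw [← hs₂, Finset.prod_congr rfl hr₂, Finset.prod_const]
  have hcard : s₁.card + s₂.card = k := by
    rw [hs₁, hs₂, Finset.card_filter_add_card_filter_not, Finset.card_univ, ZMod.card]
  obtain ⟨h5, h6⟩ := no_relation h2 hF k s₁.card s₂.card hcard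
    (fun h => by
      obtain ⟨i, hi⟩ := Finset.card_ne_zero.mp h
      have h7 := hgood i
      rw [hr₁ i hi] at h7
      rw [hs₁, Finset.mem_filter] at hi
      rwa [hi.2] at h7)
    (fun h => by
      obtain ⟨i, hi⟩ := Finset.card_ne_zero.mp h
      have h7 := hgood i
      rw [hr₂ i hi] at h7
      rw [hs₂, Finset.mem_filter] at hi
      rwa [(hsq i).resolve_left hi.2] at h7) _ hsplit
  have := NeZero.ne k
  omega

end field

end Pool.Agent.MPf2967f
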