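import Mathlib
import Pool.Agent.Lib.MP_f2967f_an.Res

set_option autoImplicit false

/-!
# Linear algebra over a local ring on the cycle `ℤ/k`
-/

namespace Pool.Agent.MPf2967f

open IsLocalRing

section local_ring

variable {V : Type*} [CommRing V] [IsLocalRing V]

/-- A linear endomorphism of a finite free module over a local ring which is injective modulo the
maximal ideal is surjective. -/
lemma surjective_of_residue_injective {ι : Type*} [Fintype ι] [DecidableEq ι]
    (L : (ι → V) →ₗ[V] (ι → V)) (L' : (ι → ResidueField V) →ₗ[ResidueField V] (ι → ResidueField V))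
    (hcomp : ∀ u i, residue V (L u i) = L' (fun i => residue V (u i)) i)
    (hinj : ∀ u, L' u = 0 → u = 0) : Function.Surjective L := by
  have hM : (LinearMap.toMatrix' L).map (residue V) = LinearMap.toMatrix' L' := by
    ext i j
    simp only [Matrix.map_apply, LinearMap.toMatrix'_apply]
    rw [hcomp]
    refine congrArg (fun v => L' v i) ?_
    funext l
    by_cases h : l = j
    · subst h; simp
    · simp [h]
  have hdet' : (LinearMap.toMatrix' L').det ≠ 0 := by
    intro h0
    obtain ⟨v, hv, hv'⟩ := Matrix.exists_mulVec_eq_zero_iff.mpr h0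
    apply hv
    apply hinj
    rw [← LinearMap.toMatrix'_mulVec, hv']
  have hdet : IsUnit (LinearMap.toMatrix' L).det := by
    have h1 : residue V (LinearMap.toMatrix' L).det ≠ 0 := by
      rw [RingHom.map_det, RingHom.mapMatrix_apply, hM]
      exact hdet'
    rw [ne_eq, residue_eq_zero_iff, mem_maximalIdeal, mem_nonunits_iff, not_not] at h1
    exact h1
  intro f
  refine ⟨(LinearMap.toMatrix' L)⁻¹.mulVec f, ?_⟩
  rw [← LinearMap.toMatrix'_mulVec, Matrix.mulVec_mulVec, Matrix.mul_nonsing_inv _ hdet,
    Matrix.one_mulVec]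

/-- three-term operator on the cycle -/
def threeTerm {R : Type*} [CommRing R] {k : ℕ} (p q r : ZMod k → R) :
    (ZMod k → R) →ₗ[R] (ZMod k → R) where
  toFun u j := p j * u (j + 1) + q j * u j + r j * u (j - 1)
  map_add' u v := by ext j; simp only [Pi.add_apply]; ring
  map_smul' a u := by
    ext j; simp only [Pi.smul_apply, smul_eq_mul, RingHom.id_apply]; ring

lemma solve_shift {k : ℕ} [NeZero k] (p q r f : ZMod k → V) (hp : ∀ j, IsUnit (p j))
    (hr : ∀ j, r j ∈ maximalIdeal V) (j₀ : ZMod k) (hq : q j₀ ∈ maximalIdeal V) :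
    ∃ u : ZMod k → V, ∀ j, p j * u (j + 1) + q j * u j + r j * u (j - 1) = f j := by
  have hs := surjective_of_residue_injective (threeTerm p q r)
    (threeTerm (fun j => residue V (p j)) (fun j => residue V (q j)) (fun j => residue V (r j)))
    (fun u i => by simp [threeTerm]) ?_
  · obtain ⟨u, hu⟩ := hs f
    exact ⟨u, fun j => congrFun hu j⟩
  · intro u hu
    have hr' : ∀ j, residue V (r j) = 0 := fun j => (residue_eq_zero_iff _).mpr (hr j)
    have hq' : residue V (q j₀) = 0 := (residue_eq_zero_iff _).mpr hq
    have hp' : ∀ j, residue V (p j) ≠ 0 := fun j => ((hp j).map (residue V)).ne_zero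
    have heq : ∀ j, residue V (p j) * u (j + 1) + residue V (q j) * u j = 0 := by
      intro j
      have := congrFun hu j
      simp only [threeTerm, LinearMap.coe_mk, AddHom.coe_mk, hr', zero_mul, add_zero,
        Pi.zero_apply] at this
      exact this
    have h1 : u (j₀ + 1) = 0 := by
      have := heq j₀
      rw [hq', zero_mul, add_zero] at this
      exact (mul_eq_zero.mp this).resolve_left (hp' _)
    ext j
    refine cycle_induction (P := fun j => u j = 0) (j₀ + 1) h1 (fun j hj => ?_) j
    have := heq j
    rw [hj, mul_zero, add_zero] at this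
    exact (mul_eq_zero.mp this).resolve_left (hp' _)

lemma solve_diag {k : ℕ} [NeZero k] (p q r f : ZMod k → V) (hq : ∀ j, IsUnit (q j))
    (hp : ∀ j, p j ∈ maximalIdeal V) (hr : ∀ j, r j ∈ maximalIdeal V) :
    ∃ u : ZMod k → V, ∀ j, p j * u (j + 1) + q j * u j + r j * u (j - 1) = f j := by
  have hs := surjective_of_residue_injective (threeTerm p q r)
    (threeTerm (fun j => residue V (p j)) (fun j => residue V (q j)) (fun j => residue V (r j)))
    (fun u i => by simp [threeTerm]) ?_
  · obtain ⟨u, hu⟩ := hs f
    exact ⟨u, fun j => congrFun hu j⟩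
  · intro u hu
    have hr' : ∀ j, residue V (r j) = 0 := fun j => (residue_eq_zero_iff _).mpr (hr j)
    have hp' : ∀ j, residue V (p j) = 0 := fun j => (residue_eq_zero_iff _).mpr (hp j)
    ext j
    have := congrFun hu j
    simp only [threeTerm, LinearMap.coe_mk, AddHom.coe_mk, hr', hp', zero_mul, add_zero, zero_add,
      Pi.zero_apply] at this
    exact (mul_eq_zero.mp this).resolve_left ((hq j).map (residue V)).ne_zero

end local_ring

end Pool.Agent.MPf2967f
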