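import Mathlib
import Pool.Agent.Lib.MP_f2967f_an.Lin

set_option autoImplicit false

/-!
# The unit multiplier and its eigenvectors
-/

namespace Pool.Agent.MPf2967f

open IsLocalRing

lemma prod_range_zmod {M : Type*} [CommMonoid M] {k : ℕ} [NeZero k] (g : ZMod k → M) :
    ∏ i ∈ Finset.range k, g (i : ZMod k) = ∏ j, g j := by
  refine Finset.prod_nbij' (fun i => (i : ZMod k)) (fun j => j.val) ?_ ?_ ?_ ?_ ?_
  · intro i _; exact Finset.mem_univ _
  · intro j _; exact Finset.mem_range.mpr (ZMod.val_lt j)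
  · intro i hi; exact ZMod.val_natCast_of_lt (Finset.mem_range.mp hi)
  · intro j _; exact ZMod.natCast_zmod_val j
  · intro i _; rfl

/-- A multiplicative cocycle on the cycle with trivial monodromy is a coboundary. -/
lemma cocycle {K : Type*} [Field K] {k : ℕ} [NeZero k] (g : ZMod k → K) (hg : ∏ j, g j = 1) :
    ∃ u : ZMod k → K, u 0 = 1 ∧ ∀ j, u (j + 1) = g j * u j := by
  refine ⟨fun j => ∏ i ∈ Finset.range j.val, g (i : ZMod k), by simp, fun j => ?_⟩
  have hj : (j + 1 : ZMod k) = ((j.val + 1 : ℕ) : ZMod k) := by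
    push_cast; rw [ZMod.natCast_zmod_val]
  have hlt := ZMod.val_lt j
  rcases Nat.lt_or_ge (j.val + 1) k with h | h
  · have h1 : (j + 1).val = j.val + 1 := by
      rw [hj, ZMod.val_natCast_of_lt h]
    simp only
    rw [h1, Finset.prod_range_succ, ZMod.natCast_zmod_val, mul_comm]
  · have hk : j.val + 1 = k := by omega
    have h1 : (j + 1 : ZMod k) = 0 := by rw [hj, hk, ZMod.natCast_self]
    simp only
    rw [h1, ZMod.val_zero, Finset.prod_range_zero]
    have h2 : ∏ i ∈ Finset.range k, g (i : ZMod k) = 1 := by rw [prod_range_zmod, hg]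
    have hr : Finset.range k = Finset.range (j.val + 1) := by rw [hk]
    rw [hr, Finset.prod_range_succ, ZMod.natCast_zmod_val] at h2
    rw [mul_comm, h2]

section

variable {R : Type*} [CommRing R] {k : ℕ} [NeZero k]

/-- companion matrix of the three-term recursion -/
def comp (b : ZMod k → R) (e : R) : Matrix (ZMod k ⊕ ZMod k) (ZMod k ⊕ ZMod k) R :=
  Matrix.fromBlocks (Matrix.of fun i j => if j = i - 1 then b j else 0)
    (Matrix.of fun i j => if j = i - 1 then -e else 0)
    (Matrix.of fun i j => if j = i - 1 then 1 else 0) 0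

lemma comp_mulVec (b : ZMod k → R) (e : R) (u v : ZMod k → R) :
    (comp b e).mulVec (Sum.elim u v) =
      Sum.elim (fun i => b (i - 1) * u (i - 1) - e * v (i - 1)) (fun i => u (i - 1)) := by
  rw [comp, Matrix.fromBlocks_mulVec]
  congr 1
  · ext i
    simp [Matrix.mulVec, dotProduct, ite_mul]
    ring
  · ext i
    simp [Matrix.mulVec, dotProduct, ite_mul]

omit [NeZero k] in
lemma comp_map {S : Type*} [CommRing S] (f : R →+* S) (b : ZMod k → R) (e : R) :
    (comp b e).map f = comp (fun j => f (b j)) (f e) := by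
  ext i j
  rcases i with i | i <;> rcases j with j | j <;> simp [comp, apply_ite f]

lemma scalar_sub_mulVec (b : ZMod k → R) (e x : R) (u v : ZMod k → R)
    (h1 : ∀ i, b (i - 1) * u (i - 1) - e * v (i - 1) = x * u i) (h2 : ∀ i, u (i - 1) = x * v i) :
    ((Matrix.scalar (ZMod k ⊕ ZMod k)) x - comp b e).mulVec (Sum.elim u v) = 0 := by
  rw [Matrix.sub_mulVec, comp_mulVec]
  ext i
  rcases i with i | i
  · simp [h1]
  · simp [h2]

end

/-- Normalisation with respect to a valuation ring. -/
lemma exists_normalise (V : ValuationSubring ℂ) {ι : Type*} [Finite ι] (w : ι → ℂ)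
    (hw : w ≠ 0) : ∃ j₀, w j₀ ≠ 0 ∧ ∀ j, w j / w j₀ ∈ V := by
  obtain ⟨i, hi⟩ := Function.ne_iff.mp hw
  have : Nonempty ι := ⟨i⟩
  obtain ⟨j₀, hj₀⟩ := Finite.exists_max (fun j => V.valuation (w j))
  have h0 : w j₀ ≠ 0 := by
    intro h
    have h1 := hj₀ i
    rw [h, map_zero, le_zero_iff, map_eq_zero] at h1
    exact hi h1
  refine ⟨j₀, h0, fun j => ?_⟩
  rw [← V.valuation_le_one_iff, map_div₀]
  exact div_le_one_of_le₀ (hj₀ j) zero_le

section main

variable (V : ValuationSubring ℂ) {k : ℕ} [NeZero k]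

lemma mem_of_pow_mem {x : ℂ} (hk : k ≠ 0) (h : x ^ k ∈ V) : x ∈ V := by
  rcases V.mem_or_inv_mem x with h1 | h1
  · exact h1
  · rcases eq_or_ne x 0 with rfl | hx
    · exact V.zero_mem
    · have : x = x ^ k * (x⁻¹) ^ (k - 1) := by
        obtain ⟨m, rfl⟩ := Nat.exists_eq_succ_of_ne_zero hk
        simp only [Nat.succ_eq_add_one, Nat.add_sub_cancel]
        rw [pow_succ, inv_pow]
        field_simp
      rw [this]
      exact V.mul_mem _ _ h (pow_mem h1 _)

/-- a unit `x₀` of `V` with `x₀ ^ k = ∏ b` -/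
lemma exists_root_prod (b : ZMod k → V) (hb : ∀ j, IsUnit (b j)) :
    ∃ x₀ : V, IsUnit x₀ ∧ x₀ ^ k = ∏ j, b j := by
  have hk : k ≠ 0 := NeZero.ne k
  obtain ⟨x, hx⟩ := IsAlgClosed.exists_pow_nat_eq ((∏ j, b j : V) : ℂ) (Nat.pos_of_ne_zero hk)
  have hxV : x ∈ V := mem_of_pow_mem V hk (by rw [hx]; exact Subtype.coe_prop _)
  have h2 : (⟨x, hxV⟩ : V) ^ k = ∏ j, b j := by
    apply Subtype.ext
    rw [← hx]; rfl
  refine ⟨⟨x, hxV⟩, ?_, h2⟩
  have h3 : IsUnit ((⟨x, hxV⟩ : V) ^ k) := by
    rw [h2, IsUnit.prod_univ_iff]; exact hb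
  exact (isUnit_pow_iff hk).mp h3

lemma eval_comp_mem (b : ZMod k → V) (e : V) (he : e ∈ maximalIdeal V)
    (x₀ : V) (hx₀ : IsUnit x₀) (h : x₀ ^ k = ∏ j, b j) :
    (comp b e).charpoly.eval x₀ ∈ maximalIdeal V := by
  rw [← residue_eq_zero_iff, Matrix.eval_charpoly, RingHom.map_det, RingHom.mapMatrix_apply]
  have h1 : ((Matrix.scalar (ZMod k ⊕ ZMod k)) x₀ - comp b e).map (residue V) =
      (Matrix.scalar (ZMod k ⊕ ZMod k)) (residue V x₀) -
        comp (fun j => residue V (b j)) (residue V e) := by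
    rw [← comp_map, Matrix.map_sub (residue V) (map_sub (residue V))]
    congr 1
    ext i j
    simp [Matrix.diagonal_apply, apply_ite (residue V)]
  rw [h1, ← Matrix.exists_mulVec_eq_zero_iff]
  have hx : residue V x₀ ≠ 0 := (hx₀.map (residue V)).ne_zero
  obtain ⟨u, hu0, hu⟩ := cocycle (fun j => residue V (b j) / residue V x₀) (by
    rw [Finset.prod_div_distrib, Finset.prod_const, Finset.card_univ, ZMod.card, ← map_pow, h,
      map_prod, div_self]
    rw [← map_prod, ← h, map_pow]
    exact pow_ne_zero _ hx)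
  refine ⟨Sum.elim u (fun i => u (i - 1) / residue V x₀), ?_, ?_⟩
  · intro h0
    have := congrFun h0 (Sum.inl 0)
    simp [hu0] at this
  · apply scalar_sub_mulVec
    · intro i
      rw [(residue_eq_zero_iff e).mpr he, zero_mul, sub_zero]
      have := hu (i - 1)
      rw [sub_add_cancel] at this
      rw [this]
      field_simp
    · intro i
      field_simp

/-- Some root of the characteristic polynomial is a unit of `V`. -/
lemma exists_unit_root (b : ZMod k → V) (hb : ∀ j, IsUnit (b j)) (e : V)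
    (he : e ∈ maximalIdeal V) :
    ∃ θ : V, IsUnit θ ∧ ((Matrix.scalar (ZMod k ⊕ ZMod k)) (θ : ℂ) -
      comp (fun j => ((b j : V) : ℂ)) (e : ℂ)).det = 0 := by
  obtain ⟨x₀, hx₀, hx⟩ := exists_root_prod V b hb
  have hmem := eval_comp_mem V b e he x₀ hx₀ hx
  set χ := (comp b e).charpoly with hχ
  have hmonic : χ.Monic := Matrix.charpoly_monic _
  have hmap : χ.map (algebraMap V ℂ) = (comp (fun j => ((b j : V) : ℂ)) (e : ℂ)).charpoly := by
    rw [hχ, ← Matrix.charpoly_map, comp_map]
    rfl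
  have hsplit : (χ.map (algebraMap V ℂ)).Splits := IsAlgClosed.splits _
  have hprod := hsplit.eval_eq_prod_roots_of_monic (hmonic.map _) (x₀ : ℂ)
  have hroot : ∀ r ∈ (χ.map (algebraMap V ℂ)).roots, ∃ y : V, (y : ℂ) = r := by
    intro r hr
    have hint : IsIntegral V r := ⟨χ, hmonic, by
      rw [← Polynomial.eval_map]
      exact Polynomial.isRoot_of_mem_roots hr⟩
    exact (IsIntegrallyClosed.isIntegral_iff (R := V) (K := ℂ)).mp hint
  -- some root is congruent to x₀
  have hex : ∃ r ∈ (χ.map (algebraMap V ℂ)).roots, ∃ y : V, (y : ℂ) = r ∧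
      x₀ - y ∈ maximalIdeal V := by
    by_contra hcon
    push Not at hcon
    have hun : ∀ s : Multiset ℂ, (∀ r ∈ s, ∃ y : V, (y : ℂ) = r ∧ x₀ - y ∉ maximalIdeal V) →
        ∃ y : V, IsUnit y ∧ (y : ℂ) = (s.map (fun r => (x₀ : ℂ) - r)).prod := by
      intro s
      induction s using Multiset.induction_on with
      | empty => intro _; exact ⟨1, isUnit_one, by simp⟩
      | cons a s ih =>
        intro hs
        obtain ⟨y, hy, hy'⟩ := ih (fun r hr => hs r (Multiset.mem_cons_of_mem hr))
        obtain ⟨z, hz, hz'⟩ := hs a (Multiset.mem_cons_self a s)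
        refine ⟨(x₀ - z) * y, ?_, ?_⟩
        · rw [mem_maximalIdeal, mem_nonunits_iff, not_not] at hz'
          exact hz'.mul hy
        · rw [Multiset.map_cons, Multiset.prod_cons, ← hy', ← hz]
          push_cast; ring
    obtain ⟨y, hy, hy'⟩ := hun _ (fun r hr => by
      obtain ⟨y, hy⟩ := hroot r hr
      exact ⟨y, hy, hcon r hr y hy⟩)
    rw [← hprod, Polynomial.eval_map] at hy'
    have h2 : Polynomial.eval₂ (algebraMap V ℂ) (x₀ : ℂ) χ = ((χ.eval x₀ : V) : ℂ) := by
      have := Polynomial.eval₂_at_apply (p := χ) (algebraMap V ℂ) x₀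
      exact this
    rw [h2] at hy'
    have h3 : y = χ.eval x₀ := Subtype.ext hy'
    rw [h3] at hy
    exact hmem hy
  obtain ⟨r, hr, y, hy, hy'⟩ := hex
  refine ⟨y, ?_, ?_⟩
  · by_contra h
    have h1 : y ∈ maximalIdeal V := h
    have h2 := Ideal.add_mem _ hy' h1
    rw [sub_add_cancel] at h2
    exact h2 hx₀
  · rw [← Matrix.eval_charpoly, ← hmap, hy]
    exact Polynomial.isRoot_of_mem_roots hr

/-- Existence of the unit multiplier and of unit eigenvectors in both directions. -/
theorem exists_eigen (b : ZMod k → V) (hb : ∀ j, IsUnit (b j)) (e : V)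
    (he : e ∈ maximalIdeal V) :
    ∃ θ : V, IsUnit θ ∧ ∃ α β : ZMod k → V, (∀ j, IsUnit (α j)) ∧ (∀ j, IsUnit (β j)) ∧
      (∀ j, θ ^ 2 * α (j + 1) + e * α (j - 1) = θ * (b j * α j)) ∧
      (∀ j, θ ^ 2 * β (j - 1) + e * β (j + 1) = θ * (b j * β j)) := by
  obtain ⟨θ, hθ, hdet⟩ := exists_unit_root V b hb e he
  have hθ0 : (θ : ℂ) ≠ 0 := by
    intro h
    have : θ = 0 := Subtype.ext h
    rw [this] at hθ
    exact not_isUnit_zero hθ
  have hres : residue V θ ≠ 0 := (hθ.map (residue V)).ne_zero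
  have hrese : residue V e = 0 := (residue_eq_zero_iff e).mpr he
  refine ⟨θ, hθ, ?_⟩
  obtain ⟨w, hw, hw'⟩ := Matrix.exists_mulVec_eq_zero_iff.mpr hdet
  set u : ZMod k → ℂ := fun i => w (Sum.inl i) with hu
  set v : ZMod k → ℂ := fun i => w (Sum.inr i) with hv
  have hwuv : w = Sum.elim u v := by
    ext i; rcases i with i | i <;> rfl
  rw [hwuv, Matrix.sub_mulVec, comp_mulVec] at hw'
  have e1 : ∀ i, (θ : ℂ) * u i = b (i - 1) * u (i - 1) - e * v (i - 1) := by
    intro i
    have := congrFun hw' (Sum.inl i)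
    simp at this
    linear_combination this
  have e2 : ∀ i, (θ : ℂ) * v i = u (i - 1) := by
    intro i
    have := congrFun hw' (Sum.inr i)
    simp at this
    linear_combination this
  have hu0 : u ≠ 0 := by
    intro h0
    apply hw
    rw [hwuv]
    ext i
    rcases i with i | i
    · simp [h0]
    · have := e2 i
      rw [h0] at this
      simp at this
      rcases this with h | h
      · exact absurd h (by simpa using hθ0)
      · simpa using h
  have e3 : ∀ j, (θ : ℂ) ^ 2 * u (j + 1) + e * u (j - 1) = θ * (b j * u j) := by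
    intro j
    have h1 := e1 (j + 1)
    rw [add_sub_cancel_right] at h1
    have h2 := e2 j
    linear_combination θ * h1 - e * h2
  -- the transposed system
  set N : Matrix (ZMod k) (ZMod k) ℂ := Matrix.of (fun i j =>
    (if j = i + 1 then (θ : ℂ) ^ 2 else 0) + (if j = i - 1 then (e : ℂ) else 0)
      - (if j = i then (θ : ℂ) * (b i : ℂ) else 0)) with hN
  have hNu : N.mulVec u = 0 := by
    ext i
    simp only [hN, Matrix.mulVec, dotProduct, Matrix.of_apply, sub_mul, add_mul, ite_mul, zero_mul,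
      Finset.sum_sub_distrib, Finset.sum_add_distrib, Finset.sum_ite_eq',
      Finset.mem_univ, if_true, Pi.zero_apply]
    have := e3 i
    linear_combination this
  have hNdet : N.det = 0 := Matrix.exists_mulVec_eq_zero_iff.mp ⟨u, hu0, hNu⟩
  obtain ⟨y, hy0, hy⟩ := Matrix.exists_vecMul_eq_zero_iff.mpr hNdet
  have e4 : ∀ j, (θ : ℂ) ^ 2 * y (j - 1) + e * y (j + 1) = θ * (b j * y j) := by
    intro j
    have h1 := congrFun hy j
    have h2 : ∀ i : ZMod k, (j = i + 1) ↔ (i = j - 1) := fun i => by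
      constructor
      · rintro rfl; ring
      · rintro rfl; ring
    have h3 : ∀ i : ZMod k, (j = i - 1) ↔ (i = j + 1) := fun i => by
      constructor
      · rintro rfl; ring
      · rintro rfl; ring
    have h4 : ∀ i : ZMod k, (j = i) ↔ (i = j) := fun i => eq_comm
    simp only [hN, Matrix.vecMul, dotProduct, Matrix.of_apply, mul_sub, mul_add, mul_ite, mul_zero,
      Finset.sum_sub_distrib, Finset.sum_add_distrib, h2, h3, h4, Finset.sum_ite_eq',
      Finset.mem_univ, if_true, Pi.zero_apply] at h1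
    linear_combination h1
  -- normalise
  obtain ⟨i₀, hi₀, hi⟩ := exists_normalise V u hu0
  obtain ⟨j₀, hj₀, hj⟩ := exists_normalise V y hy0
  have E1 : ∀ j, θ ^ 2 * (⟨u (j + 1) / u i₀, hi _⟩ : V) + e * (⟨u (j - 1) / u i₀, hi _⟩ : V) =
      θ * (b j * (⟨u j / u i₀, hi _⟩ : V)) := by
    intro j
    apply Subtype.ext
    have := e3 j
    push_cast
    field_simp
    linear_combination this
  have E2 : ∀ j, θ ^ 2 * (⟨y (j - 1) / y j₀, hj _⟩ : V) + e * (⟨y (j + 1) / y j₀, hj _⟩ : V) =
      θ * (b j * (⟨y j / y j₀, hj _⟩ : V)) := by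
    intro j
    apply Subtype.ext
    have := e4 j
    push_cast
    field_simp
    linear_combination this
  refine ⟨fun j => ⟨u j / u i₀, hi j⟩, fun j => ⟨y j / y j₀, hj j⟩, ?_, ?_, E1, E2⟩
  · refine cycle_induction i₀ ?_ ?_
    · have : (⟨u i₀ / u i₀, hi i₀⟩ : V) = 1 := Subtype.ext (by push_cast; exact div_self hi₀)
      exact this.symm.subst (motive := fun x : V => IsUnit x) isUnit_one
    · intro j hj1
      by_contra hcon
      have h1 : residue V (⟨u (j + 1) / u i₀, hi (j + 1)⟩ : V) = 0 := (residue_eq_zero_iff _).mpr hcon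
      have h2 := congrArg (residue V) (E1 j)
      simp only [map_add, map_mul, map_pow, h1, hrese, mul_zero, zero_mul, add_zero] at h2
      exact mul_ne_zero hres (mul_ne_zero ((hb j).map (residue V)).ne_zero
        (hj1.map (residue V)).ne_zero) h2.symm
  · refine cycle_induction_neg j₀ ?_ ?_
    · have : (⟨y j₀ / y j₀, hj j₀⟩ : V) = 1 := Subtype.ext (by push_cast; exact div_self hj₀)
      exact this.symm.subst (motive := fun x : V => IsUnit x) isUnit_one
    · intro j hj1
      by_contra hcon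
      have h1 : residue V (⟨y (j - 1) / y j₀, hj (j - 1)⟩ : V) = 0 := (residue_eq_zero_iff _).mpr hcon
      have h2 := congrArg (residue V) (E2 j)
      simp only [map_add, map_mul, map_pow, h1, hrese, mul_zero, zero_mul, add_zero] at h2
      exact mul_ne_zero hres (mul_ne_zero ((hb j).map (residue V)).ne_zero
        (hj1.map (residue V)).ne_zero) h2.symm

end main

end Pool.Agent.MPf2967f
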