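import Mathlib
import Pool.Agent.Lib.MP_f2967f_an.Eig

set_option autoImplicit false

/-!
# Rescaled orbit data and the formal solution over a valuation ring
-/

namespace Pool.Agent.MPf2967f

open IsLocalRing

section rescale

variable (V : ValuationSubring ℂ)

lemma coe_two : ((2 : V) : ℂ) = 2 := rfl

lemma exists_small (c : ℂ) (hc : 4 * c ∉ V) : ∃ R : ℂ, R ≠ 0 ∧ R ^ 2 = -c ∧
    ∃ ϖ : V, ϖ ∈ maximalIdeal V ∧ (ϖ : ℂ) * (2 * R) = 1 := by
  obtain ⟨R, hR⟩ := IsAlgClosed.exists_pow_nat_eq (-c) (n := 2) (by norm_num)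
  have hR2 : (2 * R) ^ 2 = -(4 * c) := by rw [mul_pow, hR]; ring
  have hRV : 2 * R ∉ V := by
    intro h
    apply hc
    have h1 : (2 * R) ^ 2 ∈ V := pow_mem h 2
    rw [hR2] at h1
    simpa using V.neg_mem _ h1
  have hR0 : R ≠ 0 := by
    rintro rfl
    apply hRV
    simp [V.zero_mem]
  have h2R : 2 * R ≠ 0 := mul_ne_zero two_ne_zero hR0
  have hinv : (2 * R)⁻¹ ∈ V := (V.mem_or_inv_mem _).resolve_left hRV
  refine ⟨R, hR0, hR, ⟨(2 * R)⁻¹, hinv⟩, ?_, inv_mul_cancel₀ h2R⟩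
  rw [mem_maximalIdeal, mem_nonunits_iff]
  intro hu
  obtain ⟨y, hy⟩ := hu.exists_right_inv
  apply hRV
  have : (y : ℂ) = 2 * R := by
    have h1 := congrArg (fun x : V => (x : ℂ)) hy
    push_cast at h1
    field_simp at h1
    rw [h1]
  rw [← this]
  exact y.2

lemma exists_b {k : ℕ} [NeZero k] (c : ℂ) (z : ZMod k → ℂ)
    (hz : ∀ j, z (j + 1) + z (j - 1) = z j ^ 2 + c) (R : ℂ) (hR0 : R ≠ 0) (hR : R ^ 2 = -c)
    (ϖ : V) (hϖ : ϖ ∈ maximalIdeal V) (hϖR : (ϖ : ℂ) * (2 * R) = 1) :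
    ∃ b : ZMod k → V, (∀ j, (b j : ℂ) = z j / R) ∧ (∀ j, IsUnit (b j)) ∧
      ∀ j, b j * b j = 1 + 2 * ϖ * (b (j + 1) + b (j - 1)) := by
  set y : ZMod k → ℂ := fun j => z j / R with hy
  have hϖ' : (ϖ : ℂ) = 1 / (2 * R) := by
    field_simp
    linear_combination hϖR
  have heq : ∀ j, y j ^ 2 - 1 = 2 * ϖ * (y (j + 1) + y (j - 1)) := by
    intro j
    have h1 := hz j
    simp only [hy, hϖ']
    field_simp
    linear_combination -h1 - hR
  have hyV : ∀ j, y j ∈ V := by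
    by_contra hcon
    push Not at hcon
    obtain ⟨i, hi⟩ := hcon
    have hy0 : y ≠ 0 := by
      intro h
      apply hi
      rw [h]
      exact V.zero_mem
    obtain ⟨j, hj0, hj⟩ := exists_normalise V y hy0
    have hjV : y j ∉ V := by
      intro h
      apply hi
      have : y i = (y i / y j) * y j := by field_simp
      rw [this]
      exact V.mul_mem _ _ (hj i) h
    have hinv : (y j)⁻¹ ∈ V := (V.mem_or_inv_mem _).resolve_left hjV
    have e1 : (1 : V) - ⟨(y j)⁻¹, hinv⟩ ^ 2 = 2 * ϖ * ((⟨y (j + 1) / y j, hj _⟩ : V)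
        + ⟨y (j - 1) / y j, hj _⟩) * ⟨(y j)⁻¹, hinv⟩ := by
      apply Subtype.ext
      push_cast
      rw [coe_two]
      have := heq j
      field_simp
      linear_combination this
    have hm : (⟨(y j)⁻¹, hinv⟩ : V) ∈ maximalIdeal V := by
      rw [mem_maximalIdeal, mem_nonunits_iff]
      intro hu
      obtain ⟨x, hx⟩ := hu.exists_right_inv
      apply hjV
      have : (x : ℂ) = y j := by
        have h1 := congrArg (fun x : V => (x : ℂ)) hx
        push_cast at h1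
        field_simp at h1
        exact h1
      rw [← this]
      exact x.2
    have e2 : (1 : V) = 2 * ϖ * ((⟨y (j + 1) / y j, hj _⟩ : V)
        + ⟨y (j - 1) / y j, hj _⟩) * ⟨(y j)⁻¹, hinv⟩ +  ⟨(y j)⁻¹, hinv⟩ * ⟨(y j)⁻¹, hinv⟩ := by
      linear_combination e1
    have : (1 : V) ∈ maximalIdeal V := by
      rw [e2]
      exact Ideal.add_mem _ (Ideal.mul_mem_left _ _ hm) (Ideal.mul_mem_left _ _ hm)
    exact this isUnit_one
  have hb : ∀ j, (⟨y j, hyV j⟩ : V) * ⟨y j, hyV j⟩ =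
      1 + 2 * ϖ * ((⟨y (j + 1), hyV _⟩ : V) + ⟨y (j - 1), hyV _⟩) := by
    intro j
    apply Subtype.ext
    push_cast
    rw [coe_two]
    linear_combination heq j
  refine ⟨fun j => ⟨y j, hyV j⟩, fun j => rfl, fun j => ?_, hb⟩
  have h1 : IsUnit ((⟨y j, hyV j⟩ : V) * ⟨y j, hyV j⟩) := by
    by_contra hcon
    have h2 : (⟨y j, hyV j⟩ : V) * ⟨y j, hyV j⟩ ∈ maximalIdeal V := hcon
    have h3 : 2 * ϖ * ((⟨y (j + 1), hyV _⟩ : V) + ⟨y (j - 1), hyV _⟩) ∈ maximalIdeal V :=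
      Ideal.mul_mem_right _ _ (Ideal.mul_mem_left _ _ hϖ)
    have h4 : (1 : V) ∈ maximalIdeal V := by
      have : (1 : V) = (⟨y j, hyV j⟩ : V) * ⟨y j, hyV j⟩ -
          2 * ϖ * ((⟨y (j + 1), hyV _⟩ : V) + ⟨y (j - 1), hyV _⟩) := by
        linear_combination -hb j
      rw [this]
      exact Ideal.sub_mem _ h2 h3
    exact h4 isUnit_one
  exact isUnit_of_mul_isUnit_left h1

end rescale

section harmonic

variable {V : ValuationSubring ℂ} {k : ℕ} [NeZero k]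

/-- passing from the cleared equation in `V` to the equation in `ℂ` -/
lemma clear_eq {ϖ θ θ' : V} {τ : ℂ} (hϖ0 : (ϖ : ℂ) ≠ 0) (hθ : θ * θ' = 1) (hτ : τ * ϖ = θ)
    (m : ℕ) (f b u up um s : V)
    (h : θ ^ (m + 1) * up + ϖ ^ (2 * (m + 1)) * θ' ^ (m + 1) * um + ϖ ^ m * s =
      ϖ ^ m * (f + b * u)) :
    (f : ℂ) + b * u = ϖ * (τ ^ ((m + 1 : ℕ) : ℤ) * up + τ ^ (-((m + 1 : ℕ) : ℤ)) * um) + s := by
  have hθ' : (θ : ℂ) * θ' = 1 := by
    have := congrArg (fun x : V => (x : ℂ)) hθ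
    simpa using this
  have hθ0 : (θ : ℂ) ≠ 0 := left_ne_zero_of_mul_eq_one hθ'
  have hτ0 : τ ≠ 0 := by
    rintro rfl
    rw [zero_mul] at hτ
    exact hθ0 hτ.symm
  have h1 := congrArg (fun x : V => (x : ℂ)) h
  push_cast at h1
  have hP : (ϖ : ℂ) ^ m ≠ 0 := pow_ne_zero _ hϖ0
  apply mul_left_cancel₀ hP
  rw [← h1, zpow_neg, zpow_natCast]
  have e1 : (θ : ℂ) ^ (m + 1) = ϖ ^ m * ϖ * τ ^ (m + 1) := by
    rw [← hτ, mul_pow]; ring
  have e2 : (ϖ : ℂ) ^ (2 * (m + 1)) * (θ' : ℂ) ^ (m + 1) = ϖ ^ m * ϖ * (τ ^ (m + 1))⁻¹ := by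
    have e3 : (θ : ℂ) ^ (m + 1) * (θ' : ℂ) ^ (m + 1) = 1 := by rw [← mul_pow, hθ', one_pow]
    have e4 : (τ ^ (m + 1)) ≠ 0 := pow_ne_zero _ hτ0
    field_simp
    rw [← hτ, mul_pow] at e3
    linear_combination ϖ ^ (m + 1) * e3
  rw [e1, e2]
  ring

lemma harm_solve_nat (b : ZMod k → V) (hb : ∀ j, IsUnit (b j)) {ϖ θ : V} {τ : ℂ}
    (hϖ : ϖ ∈ maximalIdeal V) (hϖ0 : (ϖ : ℂ) ≠ 0) (hθ : IsUnit θ) (hτ : τ * ϖ = θ)
    (m : ℕ) (f : ZMod k → V) : ∃ u : ZMod k → V, ∃ s : V, (m ≠ 1 → s = 0) ∧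
      ∀ j, (f j : ℂ) + b j * u j = ϖ * (τ ^ (m : ℤ) * u (j + 1) + τ ^ (-(m : ℤ)) * u (j - 1)) +
        (if j = 0 then (s : ℂ) else 0) := by
  obtain ⟨θ', hθ'⟩ := hθ.exists_right_inv
  rcases m with _ | m
  · -- m = 0
    obtain ⟨u, hu⟩ := solve_diag (fun _ => ϖ) (fun j => -b j) (fun _ => ϖ) f
      (fun j => (hb j).neg) (fun _ => hϖ) (fun _ => hϖ)
    refine ⟨u, 0, fun _ => rfl, fun j => ?_⟩
    have h1 := congrArg (fun x : V => (x : ℂ)) (hu j)
    push_cast at h1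
    simp
    linear_combination -h1
  · rcases m with _ | m
    · -- m = 1
      obtain ⟨u, hu⟩ := solve_shift (fun j => if j = 0 then 1 else θ)
        (fun j => if j = 0 then 0 else -b j) (fun j => if j = 0 then 0 else ϖ ^ 2 * θ')
        (fun j => if j = 0 then 0 else f j)
        (fun j => by split_ifs <;> first | exact isUnit_one | exact hθ)
        (fun j => by
          split_ifs
          · exact Ideal.zero_mem _
          · exact Ideal.mul_mem_right _ _ (Ideal.pow_mem_of_mem _ hϖ 2 (by norm_num)))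
        0 (by simp)
      refine ⟨u, f 0 + b 0 * u 0 - θ * u (0 + 1) - ϖ ^ 2 * θ' * u (0 - 1), fun h => absurd rfl h,
        fun j => ?_⟩
      by_cases hj : j = 0
      · subst hj
        rw [if_pos rfl]
        refine clear_eq hϖ0 hθ' hτ 0 (f 0) (b 0) (u 0) (u (0 + 1)) (u (0 - 1)) _ ?_
        ring
      · rw [if_neg hj]
        have h1 := hu j
        simp only [if_neg hj] at h1
        have := clear_eq hϖ0 hθ' hτ 0 (f j) (b j) (u j) (u (j + 1)) (u (j - 1)) 0 (by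
          linear_combination h1)
        simpa using this
    · -- m ≥ 2
      obtain ⟨u, hu⟩ := solve_shift (fun _ => θ ^ (m + 1 + 1))
        (fun j => -(ϖ ^ (m + 1) * b j)) (fun _ => ϖ ^ (2 * (m + 1 + 1)) * θ' ^ (m + 1 + 1))
        (fun j => ϖ ^ (m + 1) * f j)
        (fun j => hθ.pow _)
        (fun j => Ideal.mul_mem_right _ _ (Ideal.pow_mem_of_mem _ hϖ _ (by omega)))
        0 ((maximalIdeal V).neg_mem
          (Ideal.mul_mem_right _ _ (Ideal.pow_mem_of_mem _ hϖ _ (by omega))))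
      refine ⟨u, 0, fun _ => rfl, fun j => ?_⟩
      have h1 := hu j
      have := clear_eq hϖ0 hθ' hτ (m + 1) (f j) (b j) (u j) (u (j + 1)) (u (j - 1)) 0 (by
          linear_combination h1)
      simpa using this

lemma harm_solve (b : ZMod k → V) (hb : ∀ j, IsUnit (b j)) {ϖ θ : V} {τ : ℂ}
    (hϖ : ϖ ∈ maximalIdeal V) (hϖ0 : (ϖ : ℂ) ≠ 0) (hθ : IsUnit θ) (hτ : τ * ϖ = θ)
    (h : ℤ) (f : ZMod k → V) : ∃ u : ZMod k → V, ∃ s : V, (h ≠ 1 → h ≠ -1 → s = 0) ∧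
      ∀ j, (f j : ℂ) + b j * u j = ϖ * (τ ^ h * u (j + 1) + τ ^ (-h) * u (j - 1)) +
        (if j = 0 then (s : ℂ) else 0) := by
  obtain ⟨m, rfl | rfl⟩ := Int.eq_nat_or_neg h
  · obtain ⟨u, s, hs, hu⟩ := harm_solve_nat b hb hϖ hϖ0 hθ hτ m f
    exact ⟨u, s, fun h1 _ => hs (by exact_mod_cast h1), hu⟩
  · obtain ⟨u, s, hs, hu⟩ := harm_solve_nat (fun j => b (-j)) (fun j => hb _) hϖ hϖ0 hθ hτ m
      (fun j => f (-j))
    refine ⟨fun j => u (-j), s, fun _ h2 => hs (fun h3 => h2 (by rw [h3]; rfl)), fun j => ?_⟩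
    have := hu (-j)
    simp only [neg_neg, neg_eq_zero] at this ⊢
    have e1 : -(j + 1) = -j - 1 := by ring
    have e2 : -(j - 1) = -j + 1 := by ring
    rw [this, e1, e2]
    ring

end harmonic

end Pool.Agent.MPf2967f
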