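import Mathlib
import Pool.Agent.Lib.MP_f2967f_an.Form

set_option autoImplicit false

/-!
# Existence of the formal series (with defects)
-/

namespace Pool.Agent.MPf2967f

open IsLocalRing LaurentPolynomial

/-- Recursive construction of a sequence. -/
lemma exists_seq {A : Type*} (a₀ : A) (P : ℕ → (ℕ → A) → Prop)
    (hcongr : ∀ n w w', (∀ m ≤ n, w m = w' m) → P n w → P n w')
    (hstep : ∀ n w, (∀ m < n, P m w) → ∃ a, P n (Function.update w n a)) :
    ∃ w, ∀ n, P n w := by
  classical
  have hstep' : ∀ n w, ∃ a, (∀ m < n, P m w) → P n (Function.update w n a) := by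
    intro n w
    by_cases h : ∀ m < n, P m w
    · obtain ⟨a, ha⟩ := hstep n w h
      exact ⟨a, fun _ => ha⟩
    · exact ⟨a₀, fun h' => absurd h' h⟩
  choose g hg using hstep'
  set W : ℕ → (ℕ → A) := fun n => Nat.rec (fun _ => a₀) (fun n w => Function.update w n (g n w)) n
    with hW
  have hWs : ∀ n, W (n + 1) = Function.update (W n) n (g n (W n)) := fun n => rfl
  have hstab : ∀ n m, m < n → W n m = W (m + 1) m := by
    intro n
    induction n with
    | zero => intro m hm; omega
    | succ n ih =>
      intro m hm
      rcases Nat.lt_or_ge m n with h | h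
      · rw [hWs n, Function.update_of_ne (by omega), ih m h]
      · have : m = n := by omega
        rw [this]
  have hP : ∀ n, ∀ m < n, P m (W n) := by
    intro n
    induction n with
    | zero => intro m hm; omega
    | succ n ih =>
      intro m hm
      rcases Nat.lt_or_ge m n with h | h
      · refine hcongr m (W n) _ ?_ (ih m h)
        intro l hl
        rw [hstab n l (by omega), hstab (n + 1) l (by omega)]
      · have : m = n := by omega
        subst this
        rw [hWs m]
        exact hg m (W m) ih
  refine ⟨fun n => W (n + 1) n, fun n => ?_⟩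
  refine hcongr n (W (n + 1)) _ ?_ (hP (n + 1) n (by omega))
  intro m hm
  exact hstab (n + 1) m (by omega)

section laurent

variable {V : ValuationSubring ℂ} {k : ℕ} [NeZero k]

/-- The equation satisfied by one homogeneous part. -/
def Eqn (b : ZMod k → V) (ϖ : V) (τ : ℂ) (f u : ZMod k → V[T;T⁻¹]) (sp sm : V) : Prop :=
  ∀ (j : ZMod k) (h : ℤ), (((f j).coeff h : V) : ℂ) + b j * ((u j).coeff h : V) =
    ϖ * (τ ^ h * ((u (j + 1)).coeff h : V) + τ ^ (-h) * ((u (j - 1)).coeff h : V)) +
      (if j = 0 then ((if h = 1 then (sp : ℂ) else 0) + (if h = -1 then (sm : ℂ) else 0)) else 0)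

lemma laurent_solve (b : ZMod k → V) (hb : ∀ j, IsUnit (b j)) {ϖ θ : V} {τ : ℂ}
    (hϖ : ϖ ∈ maximalIdeal V) (hϖ0 : (ϖ : ℂ) ≠ 0) (hθ : IsUnit θ) (hτ : τ * ϖ = θ)
    (f : ZMod k → V[T;T⁻¹]) : ∃ u : ZMod k → V[T;T⁻¹], ∃ sp sm : V, Eqn b ϖ τ f u sp sm := by
  classical
  choose U S hS hU using fun (h : ℤ) =>
    harm_solve b hb hϖ hϖ0 hθ hτ h (fun j => (f j).coeff h)
  set s : Finset ℤ := Finset.univ.biUnion (fun j => (f j).coeff.support) with hs
  refine ⟨fun j => .ofCoeff (Finsupp.onFinset s (fun h => if h ∈ s then U h j else 0)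
    (fun h hh => by by_contra hn; simp [hn] at hh)), if 1 ∈ s then S 1 else 0,
    if -1 ∈ s then S (-1) else 0, ?_⟩
  intro j h
  simp only [Finsupp.onFinset_apply]
  by_cases hh : h ∈ s
  · simp only [if_pos hh]
    rw [hU h j]
    congr 1
    by_cases hj : j = 0
    · simp only [if_pos hj]
      by_cases h1 : h = 1
      · subst h1
        simp [hh]
      · by_cases h2 : h = -1
        · subst h2
          simp [hh]
        · rw [hS h h1 h2]
          simp [h1, h2]
    · simp [hj]
  · simp only [if_neg hh]
    have hf : (f j).coeff h = 0 := by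
      by_contra hne
      apply hh
      rw [hs, Finset.mem_biUnion]
      exact ⟨j, Finset.mem_univ _, Finsupp.mem_support_iff.mpr hne⟩
    rw [hf]
    by_cases h1 : h = 1
    · subst h1
      simp [hh]
    · by_cases h2 : h = -1
      · subst h2
        simp [hh]
      · simp [h1, h2]

open Finset in
theorem exists_series (b : ZMod k → V) (hb : ∀ j, IsUnit (b j)) {ϖ θ : V} {τ : ℂ}
    (hϖ : ϖ ∈ maximalIdeal V) (hϖ0 : (ϖ : ℂ) ≠ 0) (hθ : IsUnit θ) (hτ : τ * ϖ = θ)
    (α β : ZMod k → V)
    (hα : ∀ j, θ ^ 2 * α (j + 1) + ϖ ^ 2 * α (j - 1) = θ * (b j * α j))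
    (hβ : ∀ j, θ ^ 2 * β (j - 1) + ϖ ^ 2 * β (j + 1) = θ * (b j * β j)) :
    ∃ (w : ℕ → ZMod k → V[T;T⁻¹]) (sp sm : ℕ → V), (∀ j, w 0 j = 0) ∧
      (∀ j, w 1 j = C (α j) * T 1 + C (β j) * T (-1)) ∧ sp 0 = 0 ∧ sm 0 = 0 ∧
      ∀ n, Eqn b ϖ τ (fun j => ∑ p ∈ antidiagonal n, w p.1 j * w p.2 j) (w n) (sp n) (sm n) := by
  classical
  set w₁ : ZMod k → V[T;T⁻¹] := fun j => C (α j) * T 1 + C (β j) * T (-1) with hw₁
  have hex : ∃ a : ℕ → (ZMod k → V[T;T⁻¹]) × V × V, ∀ n,
      (n = 0 → a 0 = (0, 0, 0)) ∧ (n = 1 → a 1 = (w₁, 0, 0)) ∧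
      (2 ≤ n → Eqn b ϖ τ (fun j => ∑ p ∈ antidiagonal n, (a p.1).1 j * (a p.2).1 j) (a n).1
        (a n).2.1 (a n).2.2) := by
    refine exists_seq (0, 0, 0) (fun n a => (n = 0 → a 0 = (0, 0, 0)) ∧ (n = 1 → a 1 = (w₁, 0, 0)) ∧
      (2 ≤ n → Eqn b ϖ τ (fun j => ∑ p ∈ antidiagonal n, (a p.1).1 j * (a p.2).1 j) (a n).1
        (a n).2.1 (a n).2.2)) ?_ ?_
    · rintro n w w' hww' ⟨h0, h1, h2⟩
      refine ⟨fun h => ?_, fun h => ?_, fun h => ?_⟩
      · rw [← hww' 0 (by omega)]; exact h0 h
      · rw [← hww' 1 (by omega)]; exact h1 h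
      · have := h2 h
        rw [← hww' n le_rfl]
        have e : (fun j => ∑ p ∈ antidiagonal n, (w' p.1).1 j * (w' p.2).1 j) =
            (fun j => ∑ p ∈ antidiagonal n, (w p.1).1 j * (w p.2).1 j) := by
          funext j
          refine sum_congr rfl (fun p hp => ?_)
          rw [HasAntidiagonal.mem_antidiagonal] at hp
          rw [hww' p.1 (by omega), hww' p.2 (by omega)]
        rw [e]
        exact this
    · intro n a ha
      rcases n with _ | n
      · exact ⟨(0, 0, 0), fun _ => by simp, fun h => by omega, fun h => by omega⟩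
      · rcases n with _ | n
        · exact ⟨(w₁, 0, 0), fun h => by omega, fun _ => by simp, fun h => by omega⟩
        · obtain ⟨u, sp, sm, hu⟩ := laurent_solve b hb hϖ hϖ0 hθ hτ
            (fun j => ∑ p ∈ antidiagonal (n + 1 + 1), (Function.update a (n + 1 + 1) 0 p.1).1 j *
              (Function.update a (n + 1 + 1) 0 p.2).1 j)
          refine ⟨(u, sp, sm), fun h => by omega, fun h => by omega, fun _ => ?_⟩
          have e : (fun j => ∑ p ∈ antidiagonal (n + 1 + 1),
              (Function.update a (n + 1 + 1) (u, sp, sm) p.1).1 j *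
              (Function.update a (n + 1 + 1) (u, sp, sm) p.2).1 j) =
              (fun j => ∑ p ∈ antidiagonal (n + 1 + 1), (Function.update a (n + 1 + 1) 0 p.1).1 j *
              (Function.update a (n + 1 + 1) 0 p.2).1 j) := by
            funext j
            refine sum_congr rfl (fun p hp => ?_)
            rw [HasAntidiagonal.mem_antidiagonal] at hp
            have ha0 : a 0 = (0, 0, 0) := (ha 0 (by omega)).1 rfl
            have key : ∀ x, Function.update a (n + 1 + 1) x 0 = (0, 0, 0) := fun x => by
              rw [Function.update_of_ne (by omega), ha0]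
            by_cases h1 : p.1 = n + 1 + 1
            · have h2 : p.2 = 0 := by omega
              rw [h2, key, key]
              simp
            · by_cases h2 : p.2 = n + 1 + 1
              · have h3 : p.1 = 0 := by omega
                rw [h3, key, key]
                simp
              · rw [Function.update_of_ne h1, Function.update_of_ne h1, Function.update_of_ne h2,
                  Function.update_of_ne h2]
          rw [e]
          simpa using hu

  obtain ⟨a, ha⟩ := hex
  · refine ⟨fun n => (a n).1, fun n => (a n).2.1, fun n => (a n).2.2, ?_, ?_, ?_, ?_, ?_⟩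
    · intro j; simp only; rw [(ha 0).1 rfl]; rfl
    · intro j; simp only; rw [(ha 1).2.1 rfl]
    · simp only; rw [(ha 0).1 rfl]
    · simp only; rw [(ha 0).1 rfl]
    · intro n
      rcases n with _ | n
      · intro j h
        simp only
        rw [Finset.Nat.antidiagonal_zero, sum_singleton]
        simp only
        rw [(ha 0).1 rfl]
        simp
      · rcases n with _ | n
        · intro j h
          have e0 := (ha 0).1 rfl
          have e1 := (ha 1).2.1 rfl
          have hanti : antidiagonal 1 = {((0 : ℕ), (1 : ℕ)), (1, 0)} := by decide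
          simp only [zero_add]
          rw [hanti, sum_pair (by decide)]
          simp only
          rw [e0, e1]
          have hθ0 : (θ : ℂ) ≠ 0 := by
            intro h0
            have : θ = 0 := Subtype.ext h0
            rw [this] at hθ
            exact not_isUnit_zero hθ
          have hτ0 : τ ≠ 0 := by
            rintro rfl
            rw [zero_mul] at hτ
            exact hθ0 hτ.symm
          have ea := congrArg (fun x : V => (x : ℂ)) (hα j)
          have eb := congrArg (fun x : V => (x : ℂ)) (hβ j)
          push_cast at ea eb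
          rw [← hτ] at ea eb
          have cC : ∀ (x y : V) (h : ℤ), (C x * T 1 + C y * T (-1) : V[T;T⁻¹]).coeff h =
              (if h = 1 then x else 0) + (if h = -1 then y else 0) := by
            intro x y h
            rw [← single_eq_C_mul_T, ← single_eq_C_mul_T]
            simp only [AddMonoidAlgebra.coeff_add, AddMonoidAlgebra.coeff_single,
              Finsupp.add_apply, Finsupp.single_apply]
            congr 1
            · by_cases h1 : h = 1
              · simp [h1]
              · simp [h1, Ne.symm h1]
            · by_cases h1 : h = -1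
              · simp [h1]
              · simp [h1, Ne.symm h1]
          simp only [hw₁, cC]
          have ea' : (b j : ℂ) * α j = ϖ * (τ * α (j + 1) + τ⁻¹ * α (j - 1)) := by
            field_simp
            apply mul_left_cancel₀ hϖ0
            linear_combination -ea
          have eb' : (b j : ℂ) * β j = ϖ * (τ⁻¹ * β (j + 1) + τ * β (j - 1)) := by
            field_simp
            apply mul_left_cancel₀ hϖ0
            linear_combination -eb
          by_cases h1 : h = 1
          · subst h1
            simp [ea']
          · by_cases h2 : h = -1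
            · subst h2
              simp [eb']
            · simp [h1, h2]
        · exact (ha (n + 1 + 1)).2.2 (by omega)

end laurent

end Pool.Agent.MPf2967f
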