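import Mathlib
import Pool.Agent.Lib.MP_f2967f_an.Series
import Pool.Agent.Lib.MP_f2967f_an.Secular
import Pool.Agent.Lib.MP_f2967f_an.Analytic

set_option autoImplicit false

/-!
# The defects vanish
-/

namespace Pool.Agent.MPf2967f

open IsLocalRing LaurentPolynomial Filter Topology

section ev

variable {V : ValuationSubring ℂ}

/-- evaluation of a Laurent polynomial over `V` at a nonzero complex number -/
noncomputable def ev (t : ℂˣ) : V[T;T⁻¹] →+* ℂ := LaurentPolynomial.eval₂ (algebraMap V ℂ) t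

lemma ev_eq_sum' (t : ℂˣ) (f : V[T;T⁻¹]) :
    ev t f = f.coeff.sum (fun h a => (a : ℂ) * (t : ℂ) ^ h) := by
  induction f using LaurentPolynomial.induction_on' with
  | add p q hp hq =>
    rw [map_add, hp, hq, AddMonoidAlgebra.coeff_add, Finsupp.sum_add_index']
    · intro h; simp
    · intro h a b; push_cast; ring
  | C_mul_T n a =>
    rw [← single_eq_C_mul_T, AddMonoidAlgebra.coeff_single, Finsupp.sum_single_index (by simp),
      single_eq_C_mul_T, ev, eval₂_C_mul_T]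
    rw [Units.val_zpow_eq_zpow_val]
    rfl

lemma ev_eq_sum (t : ℂˣ) (f : V[T;T⁻¹]) (s : Finset ℤ) (hs : f.coeff.support ⊆ s) :
    ev t f = ∑ h ∈ s, ((f.coeff h : V) : ℂ) * (t : ℂ) ^ h := by
  rw [ev_eq_sum', Finsupp.sum_of_support_subset _ hs]
  intro h _
  simp

lemma Eqn.eval {k : ℕ} {b : ZMod k → V} {ϖ : V} {τ : ℂ} {f u : ZMod k → V[T;T⁻¹]} {sp sm : V}
    (H : Eqn b ϖ τ f u sp sm) (τu : ℂˣ) (hτ : (τu : ℂ) = τ) (t : ℂˣ) (j : ZMod k) :
    ev t (f j) + b j * ev t (u j) = ϖ * (ev (τu * t) (u (j + 1)) + ev (τu⁻¹ * t) (u (j - 1))) +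
      (if j = 0 then (sp : ℂ) * t + sm * (t : ℂ)⁻¹ else 0) := by
  classical
  set s : Finset ℤ := (f j).coeff.support ∪ (u j).coeff.support ∪ (u (j + 1)).coeff.support ∪
    (u (j - 1)).coeff.support ∪ {1, -1} with hs
  rw [ev_eq_sum t (f j) s (by intro x hx; simp only [hs, Finset.mem_union]; tauto),
    ev_eq_sum t (u j) s (by intro x hx; simp only [hs, Finset.mem_union]; tauto),
    ev_eq_sum (τu * t) (u (j + 1)) s (by intro x hx; simp only [hs, Finset.mem_union]; tauto),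
    ev_eq_sum (τu⁻¹ * t) (u (j - 1)) s (by intro x hx; simp only [hs, Finset.mem_union]; tauto)]
  have hone : (1 : ℤ) ∈ s := by simp [hs]
  have hneg : (-1 : ℤ) ∈ s := by simp [hs]
  have h1 : (if j = 0 then (sp : ℂ) * t + sm * (t : ℂ)⁻¹ else 0) =
      ∑ h ∈ s, (if j = 0 then ((if h = 1 then (sp : ℂ) else 0) +
        (if h = -1 then (sm : ℂ) else 0)) else 0) * (t : ℂ) ^ h := by
    by_cases hj : j = 0
    · simp only [if_pos hj, add_mul, ite_mul, zero_mul, Finset.sum_add_distrib,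
        Finset.sum_ite_eq', if_pos hone, if_pos hneg]
      simp
    · simp [hj]
  rw [h1, Finset.mul_sum, ← Finset.sum_add_distrib, ← Finset.sum_add_distrib, Finset.mul_sum,
    ← Finset.sum_add_distrib]
  refine Finset.sum_congr rfl (fun h _ => ?_)
  have := H j h
  rw [Units.val_mul, Units.val_mul, mul_zpow, mul_zpow, hτ]
  have e : ((τu⁻¹ : ℂˣ) : ℂ) ^ h = τ ^ (-h) := by
    rw [Units.val_inv_eq_inv_val, hτ, inv_zpow, zpow_neg]
  rw [e]
  linear_combination (t : ℂ) ^ h * this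

lemma ev_tendsto (f : V[T;T⁻¹]) (t : ℕ → ℂˣ) (t₀ : ℂˣ)
    (h : Tendsto (fun i => (t i : ℂ)) atTop (𝓝 (t₀ : ℂ))) :
    Tendsto (fun i => ev (t i) f) atTop (𝓝 (ev t₀ f)) := by
  simp only [ev_eq_sum _ f _ subset_rfl]
  refine tendsto_finsetSum _ (fun n _ => ?_)
  exact (h.zpow₀ n (Or.inl t₀.ne_zero)).const_mul _

end ev

/-- polynomial orbits -/
lemma exists_orbit (c : ℂ) (q₀ q₁ : Polynomial ℂ) : ∃ Q : ℕ → Polynomial ℂ, Q 0 = q₀ ∧ Q 1 = q₁ ∧
    ∀ n, Q (n + 2) = Q (n + 1) ^ 2 + Polynomial.C c - Q n := by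
  set P : ℕ → Polynomial ℂ × Polynomial ℂ := fun n =>
    (fun x : Polynomial ℂ × Polynomial ℂ => (x.2, x.2 ^ 2 + Polynomial.C c - x.1))^[n] (q₀, q₁)
    with hP
  have hs : ∀ n, P (n + 1) = ((P n).2, (P n).2 ^ 2 + Polynomial.C c - (P n).1) := by
    intro n
    simp only [hP, Function.iterate_succ_apply']
  refine ⟨fun n => (P n).1, rfl, ?_, fun n => ?_⟩
  · simp only [hs 0]; rfl
  · simp only [hs (n + 1), hs n]

/-- All the data attached to a periodic orbit and a valuation ring with `4c ∉ V`. -/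
structure Setup (V : ValuationSubring ℂ) (k : ℕ) [NeZero k] (c : ℂ) (z : ZMod k → ℂ) where
  hz : ∀ j, z (j + 1) + z (j - 1) = z j ^ 2 + c
  R : ℂ
  hR0 : R ≠ 0
  hR : R ^ 2 = -c
  ϖ : V
  θ : V
  hϖ : ϖ ∈ maximalIdeal V
  hϖR : (ϖ : ℂ) * (2 * R) = 1
  hθ : IsUnit θ
  τ : ℂˣ
  hτ : (τ : ℂ) * ϖ = θ
  b : ZMod k → V
  hb : ∀ j, (b j : ℂ) = z j / R
  hbu : ∀ j, IsUnit (b j)
  hbb : ∀ j, b j * b j = 1 + 2 * ϖ * (b (j + 1) + b (j - 1))
  α : ZMod k → V
  β : ZMod k → V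
  hαu : ∀ j, IsUnit (α j)
  hβu : ∀ j, IsUnit (β j)
  hα : ∀ j, θ ^ 2 * α (j + 1) + ϖ ^ 2 * α (j - 1) = θ * (b j * α j)
  hβ : ∀ j, θ ^ 2 * β (j - 1) + ϖ ^ 2 * β (j + 1) = θ * (b j * β j)
  w : ℕ → ZMod k → V[T;T⁻¹]
  sp : ℕ → V
  sm : ℕ → V
  hw0 : ∀ j, w 0 j = 0
  hw1 : ∀ j, w 1 j = C (α j) * T 1 + C (β j) * T (-1)
  hsp0 : sp 0 = 0
  hsm0 : sm 0 = 0
  hE : ∀ n, Eqn b ϖ τ (fun j => ∑ p ∈ Finset.HasAntidiagonal.antidiagonal n, w p.1 j * w p.2 j) (w n)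
    (sp n) (sm n)

theorem exists_setup (V : ValuationSubring ℂ) (k : ℕ) [NeZero k] (c : ℂ) (z : ZMod k → ℂ)
    (hz : ∀ j, z (j + 1) + z (j - 1) = z j ^ 2 + c) (hc : 4 * c ∉ V) :
    Nonempty (Setup V k c z) := by
  obtain ⟨R, hR0, hR, ϖ, hϖ, hϖR⟩ := exists_small V c hc
  obtain ⟨b, hb, hbu, hbb⟩ := exists_b V c z hz R hR0 hR ϖ hϖ hϖR
  obtain ⟨θ, hθ, α, β, hαu, hβu, hα, hβ⟩ := exists_eigen V b hbu (ϖ ^ 2)
    (Ideal.pow_mem_of_mem _ hϖ 2 (by norm_num))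
  have hϖ0 : (ϖ : ℂ) ≠ 0 := left_ne_zero_of_mul_eq_one hϖR
  have hθ0 : (θ : ℂ) ≠ 0 := by
    intro h0
    have : θ = 0 := Subtype.ext h0
    rw [this] at hθ
    exact not_isUnit_zero hθ
  set τ : ℂˣ := Units.mk0 ((θ : ℂ) / ϖ) (div_ne_zero hθ0 hϖ0) with hτdef
  have hτ : (τ : ℂ) * ϖ = θ := by
    rw [hτdef, Units.val_mk0]
    field_simp
  obtain ⟨w, sp, sm, hw0, hw1, hsp0, hsm0, hE⟩ :=
    exists_series b hbu hϖ hϖ0 hθ hτ α β hα hβ
  exact ⟨⟨hz, R, hR0, hR, ϖ, θ, hϖ, hϖR, hθ, τ, hτ, b, hb, hbu, hbb, α, β, hαu, hβu, hα, hβ, w, sp, sm,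
    hw0, hw1, hsp0, hsm0, hE⟩⟩

namespace Setup

variable {V : ValuationSubring ℂ} {k : ℕ} [NeZero k] {c : ℂ} {z : ZMod k → ℂ}
  (S : Setup V k c z)

lemma ϖ_eq : (S.ϖ : ℂ) = 1 / (2 * S.R) := by
  have := S.hϖR
  have h := S.hR0
  field_simp
  linear_combination this

/-- degree-`m` coefficient of the formal orbit at time `i` -/
noncomputable def x (m i : ℕ) : ℂ := 2 * S.R * ev (S.τ ^ i) (S.w m (i : ZMod k))

/-- degree-`m` defect at time `i` -/
noncomputable def δ (m i : ℕ) : ℂ :=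
  if ((i : ZMod k) = 0) then 4 * S.R ^ 2 * (S.sp m * (S.τ : ℂ) ^ i + S.sm m * ((S.τ : ℂ) ^ i)⁻¹)
    else 0

lemma x_zero (i : ℕ) : S.x 0 i = 0 := by
  simp [x, S.hw0]

lemma x_eqn (m i : ℕ) : S.x m (i + 2) + S.x m i =
    2 * z ((i + 1 : ℕ) : ZMod k) * S.x m (i + 1) +
      ∑ p ∈ Finset.HasAntidiagonal.antidiagonal m, S.x p.1 (i + 1) * S.x p.2 (i + 1) - S.δ m (i + 1) := by
  have h := (S.hE m).eval S.τ rfl (S.τ ^ (i + 1)) ((i + 1 : ℕ) : ZMod k)
  rw [map_sum] at h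
  have e1 : ((i + 1 : ℕ) : ZMod k) + 1 = ((i + 2 : ℕ) : ZMod k) := by push_cast; ring
  have e2 : ((i + 1 : ℕ) : ZMod k) - 1 = ((i : ℕ) : ZMod k) := by push_cast; ring
  have e3 : S.τ * S.τ ^ (i + 1) = S.τ ^ (i + 2) := by rw [← pow_succ']
  have e4 : S.τ⁻¹ * S.τ ^ (i + 1) = S.τ ^ i := by rw [pow_succ']; simp
  rw [e1, e2, e3, e4, S.hb, S.ϖ_eq] at h
  have hR := S.hR0
  have e5 : ∑ p ∈ Finset.HasAntidiagonal.antidiagonal m, S.x p.1 (i + 1) * S.x p.2 (i + 1) =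
      4 * S.R ^ 2 * ∑ p ∈ Finset.HasAntidiagonal.antidiagonal m,
        ev (S.τ ^ (i + 1)) (S.w p.1 ((i + 1 : ℕ) : ZMod k) * S.w p.2 ((i + 1 : ℕ) : ZMod k)) := by
    rw [Finset.mul_sum]
    refine Finset.sum_congr rfl (fun p _ => ?_)
    rw [map_mul]
    simp only [x]
    ring
  rw [e5]
  simp only [x, δ]
  set SS := ∑ p ∈ Finset.HasAntidiagonal.antidiagonal m,
        ev (S.τ ^ (i + 1)) (S.w p.1 ((i + 1 : ℕ) : ZMod k) * S.w p.2 ((i + 1 : ℕ) : ZMod k))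
  have h' : 4 * S.R ^ 2 * (SS + z ((i + 1 : ℕ) : ZMod k) / S.R *
      ev (S.τ ^ (i + 1)) (S.w m ((i + 1 : ℕ) : ZMod k))) =
      4 * S.R ^ 2 * (1 / (2 * S.R) * (ev (S.τ ^ (i + 2)) (S.w m ((i + 2 : ℕ) : ZMod k)) +
        ev (S.τ ^ i) (S.w m ((i : ℕ) : ZMod k)))) + (if ((i + 1 : ℕ) : ZMod k) = 0 then
      4 * S.R ^ 2 * (S.sp m * (S.τ : ℂ) ^ (i + 1) + S.sm m * ((S.τ : ℂ) ^ (i + 1))⁻¹) else 0) := by
    rw [h, mul_add]
    congr 1
    rw [mul_ite, mul_zero]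
    simp only [Units.val_pow_eq_pow_val]
  generalize (if ((i + 1 : ℕ) : ZMod k) = 0 then
      4 * S.R ^ 2 * (S.sp m * (S.τ : ℂ) ^ (i + 1) + S.sm m * ((S.τ : ℂ) ^ (i + 1))⁻¹) else 0) = Δ
      at h' ⊢
  field_simp at h'
  linear_combination -(1 / 2) * h'

/-- the formal orbit as a power series -/
noncomputable def A (i : ℕ) : PowerSeries ℂ :=
  PowerSeries.C (z (i : ZMod k)) + PowerSeries.mk (fun m => S.x m i)

lemma A_eqn (i : ℕ) : S.A (i + 2) = S.A (i + 1) ^ 2 + PowerSeries.C c - S.A i -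
    PowerSeries.mk (fun m => S.δ m (i + 1)) := by
  ext m
  have h := S.x_eqn m i
  have hz := S.hz ((i + 1 : ℕ) : ZMod k)
  have e1 : ((i + 1 : ℕ) : ZMod k) + 1 = ((i + 2 : ℕ) : ZMod k) := by push_cast; ring
  have e2 : ((i + 1 : ℕ) : ZMod k) - 1 = ((i : ℕ) : ZMod k) := by push_cast; ring
  rw [e1, e2] at hz
  have hsq : S.A (i + 1) ^ 2 = PowerSeries.C (z ((i + 1 : ℕ) : ZMod k) ^ 2) +
      PowerSeries.C (2 * z ((i + 1 : ℕ) : ZMod k)) * PowerSeries.mk (fun m => S.x m (i + 1)) +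
      PowerSeries.mk (fun m => S.x m (i + 1)) * PowerSeries.mk (fun m => S.x m (i + 1)) := by
    simp only [A, map_mul, map_pow, map_ofNat]
    ring
  rw [hsq]
  simp only [A, map_add, map_sub, PowerSeries.coeff_mk, PowerSeries.coeff_C_mul,
    PowerSeries.coeff_C]
  rw [PowerSeries.coeff_mul]
  simp only [PowerSeries.coeff_mk]
  by_cases hm : m = 0
  · simp only [if_pos hm]
    linear_combination h + hz
  · simp only [if_neg hm]
    linear_combination h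

lemma constantCoeff_A (i : ℕ) : PowerSeries.constantCoeff (S.A i) = z (i : ZMod k) := by
  rw [A, map_add, PowerSeries.constantCoeff_C, ← PowerSeries.coeff_zero_eq_constantCoeff_apply,
    PowerSeries.coeff_mk, x_zero, add_zero]

lemma coeff_A {m : ℕ} (hm : m ≠ 0) (i : ℕ) : PowerSeries.coeff m (S.A i) = S.x m i := by
  simp [A, PowerSeries.coeff_C, hm]

/-- the `β`-solution -/
noncomputable def bt (i : ℕ) : ℂ := ((S.τ : ℂ) ^ i)⁻¹ * S.β (i : ZMod k)

/-- the `α`-solution -/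
noncomputable def at' (i : ℕ) : ℂ := (S.τ : ℂ) ^ i * S.α (i : ZMod k)

lemma bt_eqn (i : ℕ) : S.bt (i + 2) = 2 * z ((i + 1 : ℕ) : ZMod k) * S.bt (i + 1) - S.bt i := by
  have h := congrArg (fun x : V => (x : ℂ)) (S.hβ ((i + 1 : ℕ) : ZMod k))
  have e1 : ((i + 1 : ℕ) : ZMod k) + 1 = ((i + 2 : ℕ) : ZMod k) := by push_cast; ring
  have e2 : ((i + 1 : ℕ) : ZMod k) - 1 = ((i : ℕ) : ZMod k) := by push_cast; ring
  rw [e1, e2] at h
  have h' : (S.θ : ℂ) ^ 2 * S.β ((i : ℕ) : ZMod k) + (S.ϖ : ℂ) ^ 2 * S.β ((i + 2 : ℕ) : ZMod k) =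
      S.θ * (S.b ((i + 1 : ℕ) : ZMod k) * S.β ((i + 1 : ℕ) : ZMod k)) := h
  rw [S.hb, ← S.hτ, S.ϖ_eq] at h'
  have hR := S.hR0
  have ht : (S.τ : ℂ) ≠ 0 := S.τ.ne_zero
  simp only [bt]
  field_simp at h'
  have e3 : ((S.τ : ℂ) ^ (i + 1))⁻¹ = ((S.τ : ℂ) ^ (i + 2))⁻¹ * S.τ := by
    rw [pow_succ _ (i + 1)]; field_simp
  have e4 : ((S.τ : ℂ) ^ i)⁻¹ = ((S.τ : ℂ) ^ (i + 2))⁻¹ * (S.τ : ℂ) ^ 2 := by
    rw [pow_add]; field_simp
  rw [e3, e4]
  linear_combination ((S.τ : ℂ) ^ (i + 2))⁻¹ * h'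

lemma at'_eqn (i : ℕ) : S.at' (i + 2) = 2 * z ((i + 1 : ℕ) : ZMod k) * S.at' (i + 1) - S.at' i := by
  have h := congrArg (fun x : V => (x : ℂ)) (S.hα ((i + 1 : ℕ) : ZMod k))
  have e1 : ((i + 1 : ℕ) : ZMod k) + 1 = ((i + 2 : ℕ) : ZMod k) := by push_cast; ring
  have e2 : ((i + 1 : ℕ) : ZMod k) - 1 = ((i : ℕ) : ZMod k) := by push_cast; ring
  rw [e1, e2] at h
  have h' : (S.θ : ℂ) ^ 2 * S.α ((i + 2 : ℕ) : ZMod k) + (S.ϖ : ℂ) ^ 2 * S.α ((i : ℕ) : ZMod k) =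
      S.θ * (S.b ((i + 1 : ℕ) : ZMod k) * S.α ((i + 1 : ℕ) : ZMod k)) := h
  rw [S.hb, ← S.hτ, S.ϖ_eq] at h'
  have hR := S.hR0
  simp only [at']
  field_simp at h'
  linear_combination (S.τ : ℂ) ^ i * h'

lemma coe_ne_zero_of_isUnit {x : V} (hx : IsUnit x) : (x : ℂ) ≠ 0 := by
  intro h0
  have : x = 0 := Subtype.ext h0
  rw [this] at hx
  exact not_isUnit_zero hx

omit [NeZero k] in
lemma natCast_mul_self (m : ℕ) : ((k * m : ℕ) : ZMod k) = 0 := by simp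

end Setup

/-- The analytic input: Taylor coefficients along polynomial curves converge. -/
def AI (c : ℂ) (k : ℕ) (z : ZMod k → ℂ) (N : ℕ → ℕ) : Prop :=
  ∀ Q : ℕ → Polynomial ℂ, (Q 0).coeff 0 = z 0 → (Q 1).coeff 0 = z 1 →
    (∀ n, Q (n + 2) = Q (n + 1) ^ 2 + Polynomial.C c - Q n) → ∀ m,
    Tendsto (fun i => (Q (k * N i)).coeff m) atTop (𝓝 ((Q 0).coeff m)) ∧
    Tendsto (fun i => (Q (k * N i + 1)).coeff m) atTop (𝓝 ((Q 1).coeff m))

namespace Setup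

variable {V : ValuationSubring ℂ} {k : ℕ} [NeZero k] {c : ℂ} {z : ZMod k → ℂ}
  (S : Setup V k c z) {N : ℕ → ℕ}

include S in
lemma z_nat (i : ℕ) : z ((i + 2 : ℕ) : ZMod k) = z ((i + 1 : ℕ) : ZMod k) ^ 2 + c - z (i : ZMod k) := by
  have hz := S.hz ((i + 1 : ℕ) : ZMod k)
  have e1 : ((i + 1 : ℕ) : ZMod k) + 1 = ((i + 2 : ℕ) : ZMod k) := by push_cast; ring
  have e2 : ((i + 1 : ℕ) : ZMod k) - 1 = ((i : ℕ) : ZMod k) := by push_cast; ring
  rw [e1, e2] at hz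
  linear_combination hz

lemma tau_tendsto (hAI : AI c k z N) :
    Tendsto (fun i => (S.τ : ℂ) ^ (k * N i)) atTop (𝓝 1) := by
  obtain ⟨Q, hQ0, hQ1, hQ⟩ := exists_orbit c
    (Polynomial.C (z 0) + Polynomial.C (S.at' 0) * Polynomial.X)
    (Polynomial.C (z 1) + Polynomial.C (S.at' 1) * Polynomial.X)
  have key : ∀ i, ((Q i).coeff 0 = z (i : ZMod k) ∧ (Q i).coeff 1 = S.at' i) ∧
      ((Q (i + 1)).coeff 0 = z ((i + 1 : ℕ) : ZMod k) ∧ (Q (i + 1)).coeff 1 = S.at' (i + 1)) := by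
    intro i
    induction i with
    | zero => simp [hQ0, hQ1]
    | succ i ih =>
      refine ⟨ih.2, ?_, ?_⟩
      · rw [hQ i, S.z_nat i, Polynomial.coeff_sub, Polynomial.coeff_add, pow_two,
          Polynomial.mul_coeff_zero, Polynomial.coeff_C_zero, ih.2.1, ih.1.1]
        ring
      · rw [hQ i, S.at'_eqn i, Polynomial.coeff_sub, Polynomial.coeff_add, pow_two,
          Polynomial.mul_coeff_one, Polynomial.coeff_C, ih.2.1, ih.2.2, ih.1.2]
        simp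
        ring
  have h1 := (hAI Q (by simpa using (key 0).1.1) (by simpa using (key 0).2.1) hQ 1).1
  have h2 : ∀ i, (Q (k * N i)).coeff 1 = (S.τ : ℂ) ^ (k * N i) * S.α 0 := by
    intro i
    rw [(key _).1.2, at', natCast_mul_self]
  have h3 : (Q 0).coeff 1 = S.α 0 := by
    rw [(key 0).1.2, at']; simp
  simp only [h2, h3] at h1
  have hα0 : (S.α 0 : ℂ) ≠ 0 := coe_ne_zero_of_isUnit (S.hαu 0)
  have h4 := h1.div_const (S.α 0 : ℂ)
  simpa [hα0] using h4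

lemma tau_sq_ne_one {m : ℕ} (hm : m ≠ 0) : (S.τ : ℂ) ^ m ≠ 1 := by
  intro h
  have h1 : (S.θ : ℂ) ^ m = (S.ϖ : ℂ) ^ m := by
    rw [← S.hτ, mul_pow, h, one_mul]
  have h2 : S.θ ^ m = S.ϖ ^ m := Subtype.ext (by push_cast; exact h1)
  have h3 : S.ϖ ^ m ∈ maximalIdeal V :=
    Ideal.pow_mem_of_mem _ S.hϖ m (Nat.pos_of_ne_zero hm)
  rw [← h2] at h3
  exact h3 (S.hθ.pow m)

theorem defect_zero (hN : Tendsto N atTop atTop) (hAI : AI c k z N) :
    ∀ n, S.sp n = 0 ∧ S.sm n = 0 := by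
  intro n
  induction n using Nat.strong_induction_on with
  | _ n ih =>
  rcases eq_or_ne n 0 with hn | hn
  · subst hn; exact ⟨S.hsp0, S.hsm0⟩
  -- the true orbit
  obtain ⟨Q, hQ0, hQ1, hQ⟩ := exists_orbit c (PowerSeries.trunc (n + 1) (S.A 0))
    (PowerSeries.trunc (n + 1) (S.A 1))
  set E : ℕ → PowerSeries ℂ := fun i => (Q i : PowerSeries ℂ) - S.A i with hE
  set Δ : ℕ → PowerSeries ℂ := fun i => PowerSeries.mk (fun m => S.δ m i) with hΔ
  have hrec : ∀ i, E (i + 2) = ((Q (i + 1) : PowerSeries ℂ) + S.A (i + 1)) * E (i + 1) - E i +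
      Δ (i + 1) := by
    intro i
    simp only [hE, hΔ, hQ i, S.A_eqn i]
    push_cast
    ring
  have hΔdvd : ∀ i, PowerSeries.X ^ n ∣ Δ i := by
    intro i
    rw [PowerSeries.X_pow_dvd_iff]
    intro m hm
    simp only [hΔ, PowerSeries.coeff_mk, δ, (ih m hm).1, (ih m hm).2]
    simp
  have hE0 : ∀ m < n + 1, PowerSeries.coeff m (E 0) = 0 := by
    intro m hm
    simp only [hE, hQ0, map_sub, Polynomial.coeff_coe, PowerSeries.coeff_trunc, if_pos hm, sub_self]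
  have hE1 : ∀ m < n + 1, PowerSeries.coeff m (E 1) = 0 := by
    intro m hm
    simp only [hE, hQ1, map_sub, Polynomial.coeff_coe, PowerSeries.coeff_trunc, if_pos hm, sub_self]
  have hdvd : ∀ i, PowerSeries.X ^ n ∣ E i ∧ PowerSeries.X ^ n ∣ E (i + 1) := by
    intro i
    induction i with
    | zero =>
      constructor
      · rw [PowerSeries.X_pow_dvd_iff]; exact fun m hm => hE0 m (by omega)
      · rw [PowerSeries.X_pow_dvd_iff]; exact fun m hm => hE1 m (by omega)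
    | succ i ihi =>
      refine ⟨ihi.2, ?_⟩
      rw [hrec i]
      exact dvd_add (dvd_sub (Dvd.dvd.mul_left ihi.2 _) ihi.1) (hΔdvd _)
  have hconst : ∀ i, PowerSeries.constantCoeff (Q i : PowerSeries ℂ) = z (i : ZMod k) := by
    intro i
    have h1 : PowerSeries.constantCoeff (E i) = 0 := by
      rw [← PowerSeries.X_dvd_iff]
      exact (dvd_pow_self _ hn).trans (hdvd i).1
    simp only [hE, map_sub, S.constantCoeff_A] at h1
    linear_combination h1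
  set D : ℕ → ℂ := fun i => PowerSeries.coeff n (E i) with hD
  have hDrec : ∀ i, D (i + 2) = 2 * z ((i + 1 : ℕ) : ZMod k) * D (i + 1) - D i + S.δ n (i + 1) := by
    intro i
    simp only [hD, hrec i, map_add, map_sub, hΔ, PowerSeries.coeff_mk]
    congr 2
    obtain ⟨G, hG⟩ := (hdvd i).2
    rw [hG]
    have e1 : ((Q (i + 1) : PowerSeries ℂ) + S.A (i + 1)) * (PowerSeries.X ^ n * G) =
        PowerSeries.X ^ n * (((Q (i + 1) : PowerSeries ℂ) + S.A (i + 1)) * G) := by ring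
    rw [e1]
    have e2 : ∀ H : PowerSeries ℂ, PowerSeries.coeff n (PowerSeries.X ^ n * H) =
        PowerSeries.constantCoeff H := by
      intro H
      have := PowerSeries.coeff_X_pow_mul H n 0
      rw [zero_add] at this
      rw [this, PowerSeries.coeff_zero_eq_constantCoeff_apply]
    rw [e2, e2, map_mul, map_add, hconst, S.constantCoeff_A]
    ring
  have hD0 : D 0 = 0 := hE0 n (by omega)
  have hD1 : D 1 = 0 := hE1 n (by omega)
  -- limits
  have hτ := S.tau_tendsto hAI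
  have hcoeff0 : ∀ i, (Q i).coeff 0 = z (i : ZMod k) := by
    intro i
    rw [← hconst i, ← PowerSeries.coeff_zero_eq_constantCoeff_apply, Polynomial.coeff_coe]
  obtain ⟨hl0, hl1⟩ := hAI Q (by simpa using hcoeff0 0) (by simpa using hcoeff0 1) hQ n
  have hDx : ∀ i, D i = (Q i).coeff n - S.x n i := by
    intro i
    simp only [hD, hE, map_sub, Polynomial.coeff_coe, S.coeff_A hn]
  have hx0 : Tendsto (fun i => S.x n (k * N i)) atTop (𝓝 (S.x n 0)) := by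
    have h1 : Tendsto (fun i => ev (S.τ ^ (k * N i)) (S.w n 0)) atTop (𝓝 (ev 1 (S.w n 0))) := by
      refine ev_tendsto _ _ _ ?_
      simpa using hτ
    have h2 := h1.const_mul (2 * S.R)
    simpa [x] using h2
  have hx1 : Tendsto (fun i => S.x n (k * N i + 1)) atTop (𝓝 (S.x n 1)) := by
    have h1 : Tendsto (fun i => ev (S.τ ^ (k * N i + 1)) (S.w n 1)) atTop
        (𝓝 (ev (S.τ ^ 1) (S.w n 1))) := by
      refine ev_tendsto _ _ _ ?_
      have := hτ.mul_const (S.τ : ℂ)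
      simpa [pow_succ] using this
    have h2 := h1.const_mul (2 * S.R)
    simpa [x] using h2
  have hDl0 : Tendsto (fun i => D (k * N i)) atTop (𝓝 0) := by
    have h1 := hl0.sub hx0
    have h2 : (Q 0).coeff n - S.x n 0 = 0 := by rw [← hDx 0, hD0]
    rw [h2] at h1
    simpa only [hDx] using h1
  have hDl1 : Tendsto (fun i => D (k * N i + 1)) atTop (𝓝 0) := by
    have h1 := hl1.sub hx1
    have h2 : (Q 1).coeff n - S.x n 1 = 0 := by rw [← hDx 1, hD1]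
    rw [h2] at h1
    simpa only [hDx] using h1
  have hR2 : (4 * S.R ^ 2 : ℂ) ≠ 0 := mul_ne_zero (by norm_num) (pow_ne_zero _ S.hR0)
  have hkpos : 0 < k := Nat.pos_of_ne_zero (NeZero.ne k)
  have hτ0 : (S.τ : ℂ) ≠ 0 := S.τ.ne_zero
  have h2k : (S.τ : ℂ) ^ (2 * k) ≠ 1 := S.tau_sq_ne_one (by omega)
  have hτinv : Tendsto (fun i => ((S.τ : ℂ) ^ (k * N i))⁻¹) atTop (𝓝 1) := by
    simpa using hτ.inv₀ one_ne_zero
  constructor
  · -- use the β-solution
    have hs := secular (k := k) (fun i => z (i : ZMod k)) D S.bt (S.δ n) hD0 hD1 hDrec S.bt_eqn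
      (4 * S.R ^ 2 * S.β 0 * S.sp n) (4 * S.R ^ 2 * S.β 0 * S.sm n) (((S.τ : ℂ) ^ (2 * k))⁻¹)
      (by rwa [ne_eq, inv_eq_one]) (by
        intro i
        simp only [δ, bt, ZMod.natCast_eq_zero_iff]
        by_cases hi : k ∣ i
        · obtain ⟨m, rfl⟩ := hi
          rw [if_pos (dvd_mul_right _ _), if_pos (dvd_mul_right _ _),
            Nat.mul_div_cancel_left _ hkpos, natCast_mul_self]
          have e1 : (((S.τ : ℂ) ^ (2 * k))⁻¹) ^ m = ((S.τ : ℂ) ^ (k * m))⁻¹ * ((S.τ : ℂ) ^ (k * m))⁻¹ := by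
            rw [inv_pow, ← pow_mul, ← mul_inv, ← pow_add]
            congr 2
            ring
          rw [e1]
          have e2 : (S.τ : ℂ) ^ (k * m) ≠ 0 := pow_ne_zero _ hτ0
          field_simp
        · rw [if_neg hi, if_neg hi, mul_zero]) hkpos N hN (by
        have h1 := hτinv.mul hτinv
        rw [mul_one] at h1
        refine h1.congr (fun i => ?_)
        rw [inv_pow, ← pow_mul, ← mul_inv, ← pow_add]
        congr 2
        ring) (by
        have h1 : Tendsto (fun i => S.bt (k * N i)) atTop (𝓝 (S.β 0)) := by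
          have := hτinv.mul_const (S.β 0 : ℂ)
          simpa [bt] using this
        have h2 : Tendsto (fun i => S.bt (k * N i + 1)) atTop (𝓝 ((S.τ : ℂ)⁻¹ * S.β 1)) := by
          have := hτinv.mul_const ((S.τ : ℂ)⁻¹ * S.β 1)
          refine (by simpa using this : Tendsto _ atTop (𝓝 ((S.τ : ℂ)⁻¹ * S.β 1))).congr
            (fun i => ?_)
          simp only [bt, pow_succ, mul_inv]
          push_cast
          simp
          ring
        have := (h1.mul hDl1).sub (h2.mul hDl0)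
        simpa using this)
    have hβ0 : (S.β 0 : ℂ) ≠ 0 := coe_ne_zero_of_isUnit (S.hβu 0)
    have h3 : (S.sp n : ℂ) = 0 :=
      (mul_eq_zero.mp hs).resolve_left (mul_ne_zero hR2 hβ0)
    exact Subtype.ext h3
  · have hs := secular (k := k) (fun i => z (i : ZMod k)) D S.at' (S.δ n) hD0 hD1 hDrec S.at'_eqn
      (4 * S.R ^ 2 * S.α 0 * S.sm n) (4 * S.R ^ 2 * S.α 0 * S.sp n) ((S.τ : ℂ) ^ (2 * k))
      h2k (by
        intro i
        simp only [δ, at', ZMod.natCast_eq_zero_iff]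
        by_cases hi : k ∣ i
        · obtain ⟨m, rfl⟩ := hi
          rw [if_pos (dvd_mul_right _ _), if_pos (dvd_mul_right _ _),
            Nat.mul_div_cancel_left _ hkpos, natCast_mul_self]
          have e1 : ((S.τ : ℂ) ^ (2 * k)) ^ m = ((S.τ : ℂ) ^ (k * m)) * ((S.τ : ℂ) ^ (k * m)) := by
            rw [← pow_mul, ← pow_add]
            congr 1
            ring
          rw [e1]
          have e2 : (S.τ : ℂ) ^ (k * m) ≠ 0 := pow_ne_zero _ hτ0
          field_simp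
          ring
        · rw [if_neg hi, if_neg hi, mul_zero]) hkpos N hN (by
        have h1 := hτ.mul hτ
        rw [mul_one] at h1
        refine h1.congr (fun i => ?_)
        rw [← pow_mul, ← pow_add]
        congr 1
        ring) (by
        have h1 : Tendsto (fun i => S.at' (k * N i)) atTop (𝓝 (S.α 0)) := by
          have := hτ.mul_const (S.α 0 : ℂ)
          simpa [at'] using this
        have h2 : Tendsto (fun i => S.at' (k * N i + 1)) atTop (𝓝 ((S.τ : ℂ) * S.α 1)) := by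
          have := hτ.mul_const ((S.τ : ℂ) * S.α 1)
          refine (by simpa using this : Tendsto _ atTop (𝓝 ((S.τ : ℂ) * S.α 1))).congr
            (fun i => ?_)
          simp only [at', pow_succ]
          push_cast
          simp
          ring
        have := (h1.mul hDl1).sub (h2.mul hDl0)
        simpa using this)
    have hα0 : (S.α 0 : ℂ) ≠ 0 := coe_ne_zero_of_isUnit (S.hαu 0)
    have h3 : (S.sm n : ℂ) = 0 :=
      (mul_eq_zero.mp hs).resolve_left (mul_ne_zero hR2 hα0)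
    exact Subtype.ext h3

end Setup

end Pool.Agent.MPf2967f
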