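import Mathlib

set_option autoImplicit false

/-!
# Integrality criteria by valuation rings
-/

namespace Pool.Agent.MPf2967f

/-- A complex number lying in every valuation ring of `ℂ` is an algebraic integer. -/
lemma isIntegral_of_forall_mem {x : ℂ} (h : ∀ V : ValuationSubring ℂ, x ∈ V) : IsIntegral ℤ x := by
  have h1 : x ∈ (⨅ V : {V : ValuationSubring ℂ // (∅ : Set ℂ) ⊆ V.toSubring}, V.1.toSubring) := by
    rw [Subring.mem_iInf]
    intro V
    exact h V.1
  rw [iInf_valuationSubring_superset] at h1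
  have h2 : IsIntegral (Subring.closure (∅ : Set ℂ)) x := h1
  have : Algebra.IsIntegral ℤ (Subring.closure (∅ : Set ℂ)) := by
    constructor
    rintro ⟨y, hy⟩
    have hy' := hy
    rw [Subring.closure_empty, Subring.mem_bot] at hy'
    obtain ⟨n, rfl⟩ := hy'
    have : (⟨(n : ℂ), hy⟩ : Subring.closure (∅ : Set ℂ)) =
        algebraMap ℤ (Subring.closure (∅ : Set ℂ)) n := by
      apply Subtype.ext
      simp
    rw [this]
    exact isIntegral_algebraMap
  exact isIntegral_trans x h2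

lemma closure_half {x : ℂ} (hx : x ∈ Subring.closure ({(2 : ℂ)⁻¹} : Set ℂ)) :
    ∃ (n : ℕ) (a : ℤ), (2 : ℂ) ^ n * x = a := by
  induction hx using Subring.closure_induction with
  | mem x hx =>
    rw [Set.mem_singleton_iff] at hx
    subst hx
    exact ⟨1, 1, by simp⟩
  | zero => exact ⟨0, 0, by simp⟩
  | one => exact ⟨0, 1, by simp⟩
  | add x y _ _ ihx ihy =>
    obtain ⟨n, a, hn⟩ := ihx
    obtain ⟨m, b, hm⟩ := ihy
    refine ⟨n + m, 2 ^ m * a + 2 ^ n * b, ?_⟩
    push_cast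
    rw [← hn, ← hm]
    ring
  | neg x _ ih =>
    obtain ⟨n, a, hn⟩ := ih
    exact ⟨n, -a, by push_cast; rw [← hn]; ring⟩
  | mul x y _ _ ihx ihy =>
    obtain ⟨n, a, hn⟩ := ihx
    obtain ⟨m, b, hm⟩ := ihy
    refine ⟨n + m, a * b, ?_⟩
    push_cast
    rw [← hn, ← hm]
    ring

lemma isLocalization_half :
    IsLocalization (Submonoid.powers (2 : ℤ)) (Subring.closure ({(2 : ℂ)⁻¹} : Set ℂ)) := by
  have hmem : (2 : ℂ)⁻¹ ∈ Subring.closure ({(2 : ℂ)⁻¹} : Set ℂ) :=
    Subring.subset_closure (Set.mem_singleton _)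
  have hunit : IsUnit (2 : Subring.closure ({(2 : ℂ)⁻¹} : Set ℂ)) := by
    refine IsUnit.of_mul_eq_one ⟨_, hmem⟩ ?_
    apply Subtype.ext
    show (2 : ℂ) * (2 : ℂ)⁻¹ = 1
    norm_num
  constructor
  constructor
  · rintro ⟨_, n, rfl⟩
    simp only [map_pow, map_ofNat]
    exact hunit.pow n
  · rintro ⟨x, hx⟩
    obtain ⟨n, a, hn⟩ := closure_half hx
    refine ⟨(a, ⟨2 ^ n, n, rfl⟩), ?_⟩
    apply Subtype.ext
    simp only [map_pow, map_ofNat]
    push_cast
    show x * (2 : ℂ) ^ n = ((algebraMap ℤ (Subring.closure ({(2 : ℂ)⁻¹} : Set ℂ)) a : _) : ℂ)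
    rw [mul_comm, hn]
    simp
  · intro x y hxy
    refine ⟨1, ?_⟩
    have h1 := congrArg (fun t : Subring.closure ({(2 : ℂ)⁻¹} : Set ℂ) => (t : ℂ)) hxy
    simp only [eq_intCast, SubringClass.coe_intCast, Int.cast_inj] at h1
    rw [h1]

/-- A complex number lying in every valuation ring of `ℂ` in which `2` is a unit is integral over
`ℤ[1/2]`. -/
lemma exists_isIntegral_of_forall_mem {x : ℂ}
    (h : ∀ V : ValuationSubring ℂ, (2 : ℂ)⁻¹ ∈ V → x ∈ V) : ∃ n : ℕ, IsIntegral ℤ (2 ^ n * x) := by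
  have h1 : x ∈ (⨅ V : {V : ValuationSubring ℂ // ({(2 : ℂ)⁻¹} : Set ℂ) ⊆ V.toSubring},
      V.1.toSubring) := by
    rw [Subring.mem_iInf]
    intro V
    exact h V.1 (V.2 (Set.mem_singleton _))
  rw [iInf_valuationSubring_superset] at h1
  have h2 : IsIntegral (Subring.closure ({(2 : ℂ)⁻¹} : Set ℂ)) x := h1
  have := isLocalization_half
  obtain ⟨⟨_, n, rfl⟩, hm⟩ :=
    IsIntegral.exists_multiple_integral_of_isLocalization (Submonoid.powers (2 : ℤ)) x h2
  refine ⟨n, ?_⟩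
  rw [Submonoid.smul_def, zsmul_eq_mul] at hm
  simpa using hm

end Pool.Agent.MPf2967f
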