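import Mathlib
import Pool.Agent.Lib.MP_f2967f_an.Defect

set_option autoImplicit false

/-!
# Reduction of the formal solution
-/

namespace Pool.Agent.MPf2967f

open IsLocalRing LaurentPolynomial PowerSeries

section harm

variable {A : Type*} [CommRing A]

/-- the `h`-th harmonic of a power series with Laurent polynomial coefficients -/
noncomputable def harm (h : ℤ) (F : A[T;T⁻¹]⟦X⟧) : A⟦X⟧ :=
  PowerSeries.mk (fun n => (PowerSeries.coeff n F).coeff h)

lemma harm_add (h : ℤ) (F G : A[T;T⁻¹]⟦X⟧) : harm h (F + G) = harm h F + harm h G := by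
  ext n
  simp [harm]

/-- embedding of power series -/
noncomputable def emb : A⟦X⟧ →+* A[T;T⁻¹]⟦X⟧ := PowerSeries.map LaurentPolynomial.C

lemma harm_emb (h m : ℤ) (f : A⟦X⟧) :
    harm h (emb f * PowerSeries.C (LaurentPolynomial.T m)) = if m = h then f else 0 := by
  ext n
  rw [harm, PowerSeries.coeff_mk, mul_comm, PowerSeries.coeff_C_mul, emb, PowerSeries.coeff_map,
    mul_comm, ← single_eq_C_mul_T, AddMonoidAlgebra.coeff_single, Finsupp.single_apply]
  split_ifs <;> simp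

lemma harm_ext {F G : A[T;T⁻¹]⟦X⟧} (h : ∀ m, harm m F = harm m G) : F = G := by
  ext n m
  have := congrArg (PowerSeries.coeff n) (h m)
  simpa [harm] using this

/-- decomposition of a series with harmonics in `{-1,0,1}` -/
lemma harm_decomp (F : A[T;T⁻¹]⟦X⟧) (hF : ∀ m : ℤ, m ≠ 0 → m ≠ 1 → m ≠ -1 → harm m F = 0) :
    F = emb (harm 0 F) * PowerSeries.C (T 0) + emb (harm 1 F) * PowerSeries.C (T 1) +
      emb (harm (-1) F) * PowerSeries.C (T (-1)) := by
  apply harm_ext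
  intro m
  rw [harm_add, harm_add, harm_emb, harm_emb, harm_emb]
  by_cases h0 : m = 0
  · subst h0; simp
  · by_cases h1 : m = 1
    · subst h1; simp
    · by_cases h2 : m = -1
      · subst h2; simp
      · rw [hF m h0 h1 h2, if_neg (Ne.symm h0), if_neg (Ne.symm h1), if_neg (Ne.symm h2)]
        simp

lemma sq_decomp (a b d : A⟦X⟧) :
    (emb a * PowerSeries.C (T 0) + emb b * PowerSeries.C (T 1) +
      emb d * PowerSeries.C (T (-1))) * (emb a * PowerSeries.C (T 0) + emb b * PowerSeries.C (T 1) +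
      emb d * PowerSeries.C (T (-1))) =
    emb (a ^ 2 + 2 * (b * d)) * PowerSeries.C (T 0) + emb (2 * (a * b)) * PowerSeries.C (T 1) +
      emb (2 * (a * d)) * PowerSeries.C (T (-1)) + emb (b ^ 2) * PowerSeries.C (T 2) +
      emb (d ^ 2) * PowerSeries.C (T (-2)) := by
  have e0 : (PowerSeries.C (T 0 : A[T;T⁻¹]) : A[T;T⁻¹]⟦X⟧) = 1 := by rw [T_zero, map_one]
  have e1 : (PowerSeries.C (T 1 : A[T;T⁻¹]) : A[T;T⁻¹]⟦X⟧) * PowerSeries.C (T (-1)) = 1 := by
    rw [← map_mul, ← T_add]; simp [T_zero]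
  have e2 : (PowerSeries.C (T 2 : A[T;T⁻¹]) : A[T;T⁻¹]⟦X⟧) =
      PowerSeries.C (T 1) * PowerSeries.C (T 1) := by
    rw [← map_mul, ← T_add]; rfl
  have e3 : (PowerSeries.C (T (-2) : A[T;T⁻¹]) : A[T;T⁻¹]⟦X⟧) =
      PowerSeries.C (T (-1)) * PowerSeries.C (T (-1)) := by
    rw [← map_mul, ← T_add]; rfl
  rw [e2, e3, e0]
  simp only [map_add, map_mul, map_pow, map_ofNat]
  linear_combination 2 * emb b * emb d * e1

lemma harm_sq_zero (a b d : A⟦X⟧) (F : A[T;T⁻¹]⟦X⟧) (hF : F = emb a * PowerSeries.C (T 0) +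
    emb b * PowerSeries.C (T 1) + emb d * PowerSeries.C (T (-1))) :
    harm 0 (F * F) = a ^ 2 + 2 * (b * d) ∧ harm 1 (F * F) = 2 * (a * b) ∧
      harm (-1) (F * F) = 2 * (a * d) := by
  rw [hF, sq_decomp]
  simp only [harm_add, harm_emb]
  refine ⟨?_, ?_, ?_⟩ <;> simp

end harm

section clear

variable {V : ValuationSubring ℂ}

/-- the equation in `V` obtained by clearing denominators -/
lemma clear_eq' {ϖ θ : V} {τ : ℂ} (hτ0 : τ ≠ 0) (hτ : τ * ϖ = θ)
    (m : ℕ) (f b u up um : V)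
    (h : (f : ℂ) + b * u = ϖ * (τ ^ ((m + 1 : ℕ) : ℤ) * up + τ ^ (-((m + 1 : ℕ) : ℤ)) * um)) :
    θ ^ (m + 1) * (ϖ ^ m * (f + b * u)) = θ ^ (2 * (m + 1)) * up + ϖ ^ (2 * (m + 1)) * um := by
  apply Subtype.ext
  push_cast
  rw [h, zpow_neg, zpow_natCast]
  have e4 : (τ ^ (m + 1)) ≠ 0 := pow_ne_zero _ hτ0
  have e1 : (θ : ℂ) ^ (m + 1) = (ϖ : ℂ) ^ (m + 1) * τ ^ (m + 1) := by
    rw [← hτ, mul_pow]; ring
  have e2 : (θ : ℂ) ^ (2 * (m + 1)) = (ϖ : ℂ) ^ (2 * (m + 1)) * τ ^ (2 * (m + 1)) := by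
    rw [← hτ, mul_pow]; ring
  rw [e1, e2]
  field_simp
  ring

end clear

namespace Setup

variable {V : ValuationSubring ℂ} {k : ℕ} [NeZero k] {c : ℂ} {z : ZMod k → ℂ}
  (S : Setup V k c z)

/-- The reduction of a defect-free setup modulo an ideal containing the small parameter. -/
theorem exists_reduced {A : Type*} [CommRing A] (π : V →+* A) (hπ : π S.ϖ = 0)
    (hdef : ∀ n, S.sp n = 0 ∧ S.sm n = 0) : Nonempty (Reduced A k) := by
  have hτ0 : (S.τ : ℂ) ≠ 0 := S.τ.ne_zero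
  have hEq : ∀ n j (h : ℤ), (((∑ p ∈ Finset.HasAntidiagonal.antidiagonal n,
      S.w p.1 j * S.w p.2 j).coeff h : V) : ℂ) +
      S.b j * ((S.w n j).coeff h : V) = S.ϖ * ((S.τ : ℂ) ^ h * ((S.w n (j + 1)).coeff h : V) +
        (S.τ : ℂ) ^ (-h) * ((S.w n (j - 1)).coeff h : V)) := by
    intro n j h
    have := S.hE n j h
    rw [(hdef n).1, (hdef n).2] at this
    simpa using this
  have hθu : IsUnit (π S.θ) := S.hθ.map π
  -- the sum of products modulo the ideal
  set W : ZMod k → A[T;T⁻¹]⟦X⟧ := fun j =>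
    PowerSeries.mk (fun n => AddMonoidAlgebra.mapRingHom ℤ π (S.w n j)) with hW
  have hWh : ∀ j m n, PowerSeries.coeff n (harm m (W j)) = π ((S.w n j).coeff m) := by
    intro j m n
    simp [harm, hW]
  have hWsq : ∀ j m n, PowerSeries.coeff n (harm m (W j * W j)) =
      π ((∑ p ∈ Finset.HasAntidiagonal.antidiagonal n, S.w p.1 j * S.w p.2 j).coeff m) := by
    intro j m n
    rw [harm, PowerSeries.coeff_mk, PowerSeries.coeff_mul]
    simp only [hW, PowerSeries.coeff_mk]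
    rw [← AddMonoidAlgebra.coeff_mapRingHom, map_sum]
    simp only [map_mul]
  -- harmonic 0
  have H0 : ∀ j, harm 0 (W j * W j) + PowerSeries.C (π (S.b j)) * harm 0 (W j) = 0 := by
    intro j
    ext n
    rw [map_add, hWsq, PowerSeries.coeff_C_mul, hWh]
    have h1 : (∑ p ∈ Finset.HasAntidiagonal.antidiagonal n, S.w p.1 j * S.w p.2 j).coeff 0 +
        S.b j * (S.w n j).coeff 0 = S.ϖ * ((S.w n (j + 1)).coeff 0 + (S.w n (j - 1)).coeff 0) := by
      apply Subtype.ext
      have := hEq n j 0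
      simpa using this
    have h2 := congrArg π h1
    rw [map_add, map_mul, map_mul, hπ, zero_mul] at h2
    exact h2.trans (map_zero _).symm
  -- positive harmonics
  have Hpos : ∀ j n (m : ℕ), π S.θ ^ (m + 1) * (π S.ϖ ^ m *
      (π ((∑ p ∈ Finset.HasAntidiagonal.antidiagonal n, S.w p.1 j * S.w p.2 j).coeff
        ((m + 1 : ℕ) : ℤ)) + π (S.b j) * π ((S.w n j).coeff ((m + 1 : ℕ) : ℤ)))) =
      π S.θ ^ (2 * (m + 1)) * π ((S.w n (j + 1)).coeff ((m + 1 : ℕ) : ℤ)) := by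
    intro j n m
    have h1 := clear_eq' hτ0 S.hτ m _ _ _ _ _ (hEq n j ((m + 1 : ℕ) : ℤ))
    have h2 := congrArg π h1
    simp only [map_mul, map_add, map_pow, hπ] at h2 ⊢
    rw [h2]
    simp
  have Hneg : ∀ j n (m : ℕ), π S.θ ^ (m + 1) * (π S.ϖ ^ m *
      (π ((∑ p ∈ Finset.HasAntidiagonal.antidiagonal n, S.w p.1 j * S.w p.2 j).coeff
        (-((m + 1 : ℕ) : ℤ))) + π (S.b j) * π ((S.w n j).coeff (-((m + 1 : ℕ) : ℤ))))) =
      π S.θ ^ (2 * (m + 1)) * π ((S.w n (j - 1)).coeff (-((m + 1 : ℕ) : ℤ))) := by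
    intro j n m
    have h0 := hEq n j (-((m + 1 : ℕ) : ℤ))
    rw [neg_neg, add_comm ((S.τ : ℂ) ^ (-((m + 1 : ℕ) : ℤ)) * _)] at h0
    have h1 := clear_eq' hτ0 S.hτ m _ _ _ _ _ h0
    have h2 := congrArg π h1
    simp only [map_mul, map_add, map_pow, hπ] at h2 ⊢
    rw [h2]
    simp
  -- higher harmonics vanish
  have Hhigh : ∀ j (m : ℤ), m ≠ 0 → m ≠ 1 → m ≠ -1 → harm m (W j) = 0 := by
    intro j m h0 h1 h2
    ext n
    rw [hWh, map_zero]
    obtain ⟨l, rfl | rfl⟩ := Int.eq_nat_or_neg m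
    · obtain ⟨l', rfl⟩ : ∃ l', l = l' + 1 + 1 := ⟨l - 2, by omega⟩
      have := Hpos (j - 1) n (l' + 1)
      rw [hπ, zero_pow (by omega), zero_mul, mul_zero, sub_add_cancel] at this
      exact ((hθu.pow _).mul_right_eq_zero.mp this.symm)
    · obtain ⟨l', rfl⟩ : ∃ l', l = l' + 1 + 1 := ⟨l - 2, by omega⟩
      have := Hneg (j + 1) n (l' + 1)
      rw [hπ, zero_pow (by omega), zero_mul, mul_zero, add_sub_cancel_right] at this
      exact ((hθu.pow _).mul_right_eq_zero.mp this.symm)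
  -- harmonics ±1
  have H1 : ∀ j, harm 1 (W j * W j) + PowerSeries.C (π (S.b j)) * harm 1 (W j) =
      PowerSeries.C (π S.θ) * harm 1 (W (j + 1)) := by
    intro j
    ext n
    rw [map_add, hWsq, PowerSeries.coeff_C_mul, PowerSeries.coeff_C_mul, hWh, hWh]
    have := Hpos j n 0
    simp only [zero_add, pow_one, pow_zero, one_mul, mul_one, Nat.cast_one] at this
    apply hθu.mul_left_cancel
    rw [this]
    ring
  have H1' : ∀ j, harm (-1) (W j * W j) + PowerSeries.C (π (S.b j)) * harm (-1) (W j) =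
      PowerSeries.C (π S.θ) * harm (-1) (W (j - 1)) := by
    intro j
    ext n
    rw [map_add, hWsq, PowerSeries.coeff_C_mul, PowerSeries.coeff_C_mul, hWh, hWh]
    have := Hneg j n 0
    simp only [zero_add, pow_one, pow_zero, one_mul, mul_one, Nat.cast_one] at this
    apply hθu.mul_left_cancel
    rw [this]
    ring
  -- dividing the ±1 harmonics by X
  set B : ZMod k → A⟦X⟧ := fun j => PowerSeries.mk (fun n => π ((S.w (n + 1) j).coeff 1)) with hB
  set D : ZMod k → A⟦X⟧ := fun j => PowerSeries.mk (fun n => π ((S.w (n + 1) j).coeff (-1)))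
    with hD
  have hBX : ∀ j, harm 1 (W j) = X * B j := by
    intro j
    ext n
    rw [hWh]
    rcases n with _ | n
    · rw [S.hw0]; simp
    · rw [coeff_succ_X_mul]; simp [hB]
  have hDX : ∀ j, harm (-1) (W j) = X * D j := by
    intro j
    ext n
    rw [hWh]
    rcases n with _ | n
    · rw [S.hw0]; simp
    · rw [coeff_succ_X_mul]; simp [hD]
  have hsq : ∀ j, harm 0 (W j * W j) = (harm 0 (W j)) ^ 2 + 2 * (X * B j * (X * D j)) ∧
      harm 1 (W j * W j) = 2 * (harm 0 (W j) * (X * B j)) ∧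
      harm (-1) (W j * W j) = 2 * (harm 0 (W j) * (X * D j)) := by
    intro j
    refine harm_sq_zero _ _ _ (W j) ?_
    rw [← hBX, ← hDX]
    exact harm_decomp _ (Hhigh j)
  have cC : ∀ (x y : V), (LaurentPolynomial.C x * T 1 + LaurentPolynomial.C y * T (-1) :
      V[T;T⁻¹]).coeff 1 = x ∧ (LaurentPolynomial.C x * T 1 + LaurentPolynomial.C y * T (-1) :
      V[T;T⁻¹]).coeff (-1) = y := by
    intro x y
    rw [← single_eq_C_mul_T, ← single_eq_C_mul_T]
    simp [AddMonoidAlgebra.coeff_add, AddMonoidAlgebra.coeff_single, -single_eq_C_mul_T]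
  refine ⟨⟨fun j => π (S.b j), π S.θ, fun j => harm 0 (W j), B, D, ?_, ?_, ?_, ?_, ?_, ?_, ?_⟩⟩
  · intro j
    have h := congrArg π (S.hbb j)
    simpa [hπ] using h
  · intro j
    rw [← coeff_zero_eq_constantCoeff_apply, hWh, S.hw0]
    simp
  · intro j
    rw [isUnit_iff_constantCoeff, ← coeff_zero_eq_constantCoeff_apply]
    simp only [hB, PowerSeries.coeff_mk]
    rw [zero_add, S.hw1, (cC _ _).1]
    exact (S.hαu j).map π
  · intro j
    rw [isUnit_iff_constantCoeff, ← coeff_zero_eq_constantCoeff_apply]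
    simp only [hD, PowerSeries.coeff_mk]
    rw [zero_add, S.hw1, (cC _ _).2]
    exact (S.hβu j).map π
  · intro j
    have := H0 j
    rw [(hsq j).1] at this
    linear_combination this
  · intro j
    have := H1 j
    rw [(hsq j).2.1, hBX, hBX] at this
    apply X_mul_cancel
    linear_combination this
  · intro j
    have := H1' j
    rw [(hsq j).2.2, hDX, hDX] at this
    apply X_mul_cancel
    linear_combination this

end Setup

end Pool.Agent.MPf2967f
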