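import Mathlib
import Pool.Agent.Lib.MP_f2967f_an.Reduce
import Pool.Agent.Lib.MP_f2967f_an.Places

set_option autoImplicit false

/-!
# Main theorem
-/

namespace Pool.Agent.MPf2967f

open IsLocalRing Filter Topology

section algebra

variable {k : ℕ} [NeZero k] {c : ℂ} {z : ZMod k → ℂ} {N : ℕ → ℕ}

/-- residue characteristic different from two -/
lemma mem_of_two_inv_mem (hz : ∀ j, z (j + 1) + z (j - 1) = z j ^ 2 + c)
    (hN : Tendsto N atTop atTop) (hAI : AI c k z N) (V : ValuationSubring ℂ)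
    (h2 : (2 : ℂ)⁻¹ ∈ V) : c ∈ V := by
  by_contra hc
  have h4 : 4 * c ∉ V := by
    intro h
    apply hc
    have : c = (2 : ℂ)⁻¹ * ((2 : ℂ)⁻¹ * (4 * c)) := by ring
    rw [this]
    exact V.mul_mem _ _ h2 (V.mul_mem _ _ h2 h)
  obtain ⟨S⟩ := exists_setup V k c z hz h4
  have hdef := S.defect_zero hN hAI
  obtain ⟨T⟩ := S.exists_reduced (residue V) ((residue_eq_zero_iff _).mpr S.hϖ) hdef
  refine field_case (K := ResidueField V) ?_ T
  have h2u : IsUnit (2 : V) := by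
    refine IsUnit.of_mul_eq_one ⟨_, h2⟩ ?_
    apply Subtype.ext
    show (2 : ℂ) * (2 : ℂ)⁻¹ = 1
    norm_num
  have := (h2u.map (residue V)).ne_zero
  rwa [map_ofNat] at this

/-- the two-adic bound, valid in every valuation ring -/
lemma mem_two_adic (hz : ∀ j, z (j + 1) + z (j - 1) = z j ^ 2 + c)
    (hN : Tendsto N atTop atTop) (hAI : AI c k z N) (V : ValuationSubring ℂ) :
    4096 * (k : ℂ) ^ 2 * c ∈ V := by
  by_cases h4 : 4 * c ∈ V
  · have : 4096 * (k : ℂ) ^ 2 * c = ((1024 * k ^ 2 : ℕ) : ℂ) * (4 * c) := by push_cast; ring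
    rw [this]
    exact V.mul_mem _ _ (natCast_mem V _) h4
  · obtain ⟨S⟩ := exists_setup V k c z hz h4
    have hdef := S.defect_zero hN hAI
    obtain ⟨T⟩ := S.exists_reduced (Ideal.Quotient.mk (Ideal.span {S.ϖ}))
      (Ideal.Quotient.eq_zero_iff_mem.mpr (Ideal.mem_span_singleton_self _)) hdef
    have h1 := T.two_adic
    have h2 : Ideal.Quotient.mk (Ideal.span {S.ϖ}) (32 * (k : V)) = 0 := by
      rw [map_mul, map_ofNat, map_natCast]
      exact h1
    rw [Ideal.Quotient.eq_zero_iff_mem, Ideal.mem_span_singleton] at h2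
    obtain ⟨v, hv⟩ := h2
    have h3 : ((32 * (k : V) : V) : ℂ) = (S.ϖ : ℂ) * v := by rw [hv]; rfl
    have h32 : ((32 * (k : V) : V) : ℂ) = 32 * (k : ℂ) := by
      push_cast
      rfl
    rw [h32, S.ϖ_eq] at h3
    have hR0 := S.hR0
    have h5 : (v : ℂ) = 64 * k * S.R := by
      field_simp at h3
      linear_combination -h3
    have h6 : 4096 * (k : ℂ) ^ 2 * c = -((v : ℂ) * v) := by
      rw [h5]
      have := S.hR
      linear_combination 4096 * (k : ℂ) ^ 2 * this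
    rw [h6]
    exact V.neg_mem _ (V.mul_mem _ _ v.2 v.2)

end algebra

/-- reduction to a periodic sequence -/
lemma exists_cycle (c : ℂ) (p : ℂ × ℂ) (d : ℕ) [NeZero d] (hp : (henon c)^[d] p = p) :
    ∃ z : ZMod d → ℂ, (∀ j, z (j + 1) + z (j - 1) = z j ^ 2 + c) ∧ z 0 = p.2 ∧ z 1 = p.1 := by
  set y : ℕ → ℂ := fun n => ((henon c)^[n] p).2 with hy
  have hy1 : ∀ n, y (n + 1) = ((henon c)^[n] p).1 := by
    intro n
    simp only [hy, Function.iterate_succ_apply']
    rfl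
  have hy2 : ∀ n, y (n + 2) = y (n + 1) ^ 2 + c - y n := by
    intro n
    rw [hy1 (n + 1), hy1 n, Function.iterate_succ_apply']
    rfl
  have hper : ∀ n, y (n % d) = y n := by
    intro n
    have h := Function.IsPeriodicPt.iterate_mod_apply (f := henon c) (x := p) (n := d) hp n
    simp only [hy]
    rw [h]
  set z : ZMod d → ℂ := fun j => y j.val with hz
  have hzn : ∀ n : ℕ, z (n : ZMod d) = y n := by
    intro n
    simp only [hz, ZMod.val_natCast]
    exact hper n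
  refine ⟨z, fun j => ?_, ?_, ?_⟩
  · obtain ⟨n, hn⟩ : ∃ n : ℕ, j - 1 = (n : ZMod d) := ⟨(j - 1).val, (ZMod.natCast_zmod_val _).symm⟩
    have h1 : j = ((n + 1 : ℕ) : ZMod d) := by push_cast; rw [← hn]; ring
    have h2 : j + 1 = ((n + 2 : ℕ) : ZMod d) := by rw [h1]; push_cast; ring
    rw [h2, hn, h1, hzn, hzn, hzn, hy2 n]
    ring
  · have := hzn 0
    simpa [hy] using this
  · have := hzn 1
    rw [hy1 0] at this
    simpa using this

/-- iterates converging to the identity near a periodic point are eventually multiples of the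
minimal period -/
lemma eventually_dvd (c : ℂ) (p : ℂ × ℂ) (φ : ℕ → ℕ)
    (hlim : Tendsto (fun j => (henon c)^[φ j] p) atTop (𝓝 p))
    (hpos : 0 < Function.minimalPeriod (henon c) p) :
    ∀ᶠ j in atTop, Function.minimalPeriod (henon c) p ∣ φ j := by
  classical
  set d := Function.minimalPeriod (henon c) p with hd
  set s : Finset (ℂ × ℂ) := ((Finset.range d).image (fun i => (henon c)^[i] p)).erase p with hs
  have hopen : IsOpen ((s : Set (ℂ × ℂ))ᶜ) := s.finite_toSet.isClosed.isOpen_compl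
  have hmem : p ∈ ((s : Set (ℂ × ℂ))ᶜ) := by simp [hs]
  filter_upwards [hlim.eventually (hopen.mem_nhds hmem)] with j hj
  have h1 : (henon c)^[φ j] p ∈ (Finset.range d).image (fun i => (henon c)^[i] p) := by
    rw [Finset.mem_image]
    refine ⟨φ j % d, Finset.mem_range.mpr (Nat.mod_lt _ hpos), ?_⟩
    exact Function.iterate_mod_minimalPeriod_eq
  have h2 : (henon c)^[φ j] p = p := by
    by_contra hne
    exact hj (by rw [hs]; exact Finset.mem_coe.mpr (Finset.mem_erase.mpr ⟨hne, h1⟩))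
  exact Function.IsPeriodicPt.minimalPeriod_dvd h2

/-- Data extracted from a periodic point in a Siegel domain. -/
lemma exists_data (c : ℂ) (p : ℂ × ℂ) (k : ℕ) (hk : 0 < k) (hp : (henon c)^[k] p = p)
    (U : Set (ℂ × ℂ)) (hU : IsOpen U) (hpU : p ∈ U) (φ : ℕ → ℕ) (hφ : StrictMono φ)
    (hlim : TendstoLocallyUniformlyOn (fun j => (henon c)^[φ j]) (id : ℂ × ℂ → ℂ × ℂ) atTop U) :
    ∃ (d : ℕ) (_ : NeZero d) (z : ZMod d → ℂ) (N : ℕ → ℕ), d ∣ k ∧
      (∀ j, z (j + 1) + z (j - 1) = z j ^ 2 + c) ∧ Tendsto N atTop atTop ∧ AI c d z N := by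
  have hper : Function.IsPeriodicPt (henon c) k p := hp
  have hpos : 0 < Function.minimalPeriod (henon c) p := hper.minimalPeriod_pos hk
  have hdvd := hper.minimalPeriod_dvd
  have hpt := hlim.tendsto_at hpU
  have hev := eventually_dvd c p φ hpt hpos
  set d := Function.minimalPeriod (henon c) p with hd
  have hne : NeZero d := ⟨hpos.ne'⟩
  have hdp : (henon c)^[d] p = p := Function.iterate_minimalPeriod
  obtain ⟨z, hz, hz0, hz1⟩ := exists_cycle c p d hdp
  obtain ⟨j₀, hj₀⟩ := eventually_atTop.mp hev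
  set N : ℕ → ℕ := fun i => φ (i + j₀) / d with hN
  have hdN : ∀ i, d * N i = φ (i + j₀) := fun i =>
    Nat.mul_div_cancel' (hj₀ _ (Nat.le_add_left _ _))
  have hNtop : Tendsto N atTop atTop := by
    have h1 : Tendsto (fun i => φ (i + j₀)) atTop atTop :=
      (tendsto_add_atTop_iff_nat j₀).mpr hφ.tendsto_atTop
    rw [tendsto_atTop_atTop] at h1 ⊢
    intro b
    obtain ⟨i, hi⟩ := h1 (d * b)
    refine ⟨i, fun a ha => ?_⟩
    have h2 := hi a ha
    rw [← hdN a] at h2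
    exact Nat.le_of_mul_le_mul_left h2 hpos
  have hAI : AI c d z N := by
    intro Q hQ0 hQ1 hQ l
    have h1 := coeff_tendsto c p U hU hpU φ hlim Q (by rw [hQ0, hz0]) (by rw [hQ1, hz1]) hQ l
    have h2 := (tendsto_add_atTop_iff_nat j₀).mpr h1.1
    have h3 := (tendsto_add_atTop_iff_nat j₀).mpr h1.2
    simp only [hdN]
    exact ⟨h2, h3⟩
  exact ⟨d, hne, z, N, hdvd, hz, hNtop, hAI⟩

lemma odd_part_mem (V : ValuationSubring ℂ) (h2 : (2 : ℂ)⁻¹ ∉ V) {m : ℕ} (hm : ¬ 2 ∣ m) :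
    ((m : ℂ))⁻¹ ∈ V := by
  have h2' : (2 : V) ∈ maximalIdeal V := by
    rw [mem_maximalIdeal, mem_nonunits_iff]
    intro hu
    obtain ⟨x, hx⟩ := hu.exists_right_inv
    apply h2
    have h1 : (2 : ℂ) * x = 1 := congrArg (fun y : V => (y : ℂ)) hx
    have : (x : ℂ) = (2 : ℂ)⁻¹ := eq_inv_of_mul_eq_one_right h1
    rw [← this]
    exact x.2
  have hu : IsUnit (m : V) := by
    by_contra hcon
    have h3 : (m : V) ∈ maximalIdeal V := hcon
    obtain ⟨l, hl⟩ := Nat.odd_iff.mpr (Nat.two_dvd_ne_zero.mp hm)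
    have h4 : (m : V) - 2 * (l : V) ∈ maximalIdeal V :=
      Ideal.sub_mem _ h3 (Ideal.mul_mem_right _ _ h2')
    have h5 : (m : V) - 2 * (l : V) = 1 := by rw [hl]; push_cast; ring
    rw [h5] at h4
    exact h4 isUnit_one
  obtain ⟨x, hx⟩ := hu.exists_right_inv
  have h1 : ((m : V) : ℂ) * x = 1 := congrArg (fun y : V => (y : ℂ)) hx
  have h1' : (m : ℂ) * x = 1 := by simpa using h1
  have : (x : ℂ) = ((m : ℂ))⁻¹ := eq_inv_of_mul_eq_one_right h1'
  rw [← this]
  exact x.2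

/-- **Main theorem.** -/
theorem siegel_arith (c : ℂ) (p : ℂ × ℂ) (k : ℕ) (hk : 0 < k) (hp : (henon c)^[k] p = p)
    (U : Set (ℂ × ℂ)) (hU : IsOpen U) (hpU : p ∈ U) (φ : ℕ → ℕ) (hφ : StrictMono φ)
    (hlim : TendstoLocallyUniformlyOn (fun j => (henon c)^[φ j]) (id : ℂ × ℂ → ℂ × ℂ) atTop U) :
    IsIntegral ℤ ((2 : ℂ) ^ (12 + 2 * padicValNat 2 k) * c) := by
  obtain ⟨d, hne, z, N, hdvd, hz, hN, hAI⟩ := exists_data c p k hk hp U hU hpU φ hφ hlim
  refine isIntegral_of_forall_mem (fun V => ?_)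
  by_cases h2 : (2 : ℂ)⁻¹ ∈ V
  · have h3 := mem_of_two_inv_mem hz hN hAI V h2
    have h4 : (2 : ℂ) ^ (12 + 2 * padicValNat 2 k) ∈ V := by
      have := natCast_mem V (2 ^ (12 + 2 * padicValNat 2 k))
      push_cast at this
      exact this
    exact V.mul_mem _ _ h4 h3
  · have h3 := mem_two_adic hz hN hAI V
    obtain ⟨m, hm⟩ := hdvd
    have h4 : 4096 * (k : ℂ) ^ 2 * c ∈ V := by
      have h5 : 4096 * (k : ℂ) ^ 2 * c = ((m ^ 2 : ℕ) : ℂ) * (4096 * (d : ℂ) ^ 2 * c) := by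
        rw [hm]; push_cast; ring
      rw [h5]
      exact V.mul_mem _ _ (natCast_mem V _) h3
    obtain ⟨l, hl2, hl⟩ : ∃ l : ℕ, ¬ 2 ∣ l ∧ k = 2 ^ padicValNat 2 k * l := by
      refine ⟨k / 2 ^ padicValNat 2 k, ?_, ?_⟩
      · have := Nat.not_dvd_ordCompl Nat.prime_two hk.ne'
        rwa [Nat.factorization_def _ Nat.prime_two] at this
      · exact (Nat.mul_div_cancel' (pow_padicValNat_dvd)).symm
    have h6 := odd_part_mem V h2 hl2
    have hl0 : (l : ℂ) ≠ 0 := by
      intro h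
      apply hl2
      have : l = 0 := by exact_mod_cast h
      rw [this]
      exact dvd_zero 2
    have h7 : (2 : ℂ) ^ (12 + 2 * padicValNat 2 k) * c =
        (l : ℂ)⁻¹ * (l : ℂ)⁻¹ * (4096 * (k : ℂ) ^ 2 * c) := by
      have h8 : (k : ℂ) = 2 ^ padicValNat 2 k * l := by
        have := congrArg (Nat.cast : ℕ → ℂ) hl
        push_cast at this
        exact this
      rw [h8]
      field_simp
      ring
    rw [h7]
    exact V.mul_mem _ _ (V.mul_mem _ _ h6 h6) h4

end Pool.Agent.MPf2967f
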